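import Pool.Agent.PKF.Hall

/-!
PKF-C1 (MP_36eb6d_co).  A perfect matching that is not forced into three given cells.

If all perfect matchings agree in the rows `i1, i2` then `C1_side` (Hall) gives disjoint nonempty sets `P`, `Q` closed
under out-neighbours and in-neighbours; each contains a two-cycle, and the four resulting perfect matchings
contradict the disjunction in the rows `i3, i4`.
-/

set_option autoImplicit false

namespace Pool.Agent.PKF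

private theorem C1_side (B : Fin 6 → Fin 6 → Prop) (hr : ∀ i, B i i) (e : Fin 6)
    (hno : ¬ ∃ σ : P6, (∀ i, B i (σ i)) ∧ σ e ≠ e) :
    ∃ P Q : Finset (Fin 6), e ∉ P ∧ e ∉ Q ∧ (∀ i ∈ P, i ∉ Q) ∧
      (∀ i ∈ P, ∀ j, B i j → j ∈ P) ∧ (∀ j ∈ Q, ∀ i, B i j → i ∈ Q) ∧
      (∀ j, B e j → j ≠ e → j ∈ P) ∧ (∀ i, B i e → i ≠ e → i ∈ Q) := by
  classical
  obtain ⟨S, T, h1, h2⟩ := hall_rect (fun i t => B i t ∧ ¬ (i = e ∧ t = e)) (by
    rintro ⟨σ, hσ⟩
    exact hno ⟨σ, fun i => (hσ i).1, fun h => (hσ e).2 ⟨rfl, h⟩⟩)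
  have h3 : S ∩ T ⊆ {e} := by
    intro i hi
    rw [Finset.mem_inter] at hi
    rw [Finset.mem_singleton]
    by_contra hne
    exact h2 i hi.1 i hi.2 ⟨hr i, fun h => hne h.1⟩
  have h4 := Finset.card_union_add_card_inter S T
  have h5 : (S ∪ T).card ≤ 6 := (Finset.card_le_univ _).trans (by rw [Fintype.card_fin])
  have h6 : (S ∩ T).card ≤ 1 := (Finset.card_le_card h3).trans (by simp)
  have h7 : S ∪ T = Finset.univ := by
    rw [← Finset.card_eq_iff_eq_univ, Fintype.card_fin]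
    omega
  have h8 : e ∈ S ∩ T := by
    have h9 : (S ∩ T).Nonempty := Finset.card_pos.1 (by omega)
    obtain ⟨i, hi⟩ := h9
    have h10 := h3 hi
    rw [Finset.mem_singleton] at h10
    rwa [← h10]
  rw [Finset.mem_inter] at h8
  have h9 : ∀ i, i ∈ S ∨ i ∈ T := by
    intro i
    have := Finset.mem_univ i
    rw [← h7, Finset.mem_union] at this
    exact this
  refine ⟨S.erase e, T.erase e, by simp, by simp, ?_, ?_, ?_, ?_, ?_⟩
  · intro i hi hi'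
    rw [Finset.mem_erase] at hi hi'
    have := h3 (Finset.mem_inter.2 ⟨hi.2, hi'.2⟩)
    rw [Finset.mem_singleton] at this
    exact hi.1 this
  · intro i hi j hij
    rw [Finset.mem_erase] at hi ⊢
    have hj : j ∉ T := fun hj => h2 i hi.2 j hj ⟨hij, fun h => hi.1 h.1⟩
    exact ⟨fun h => hj (by rw [h]; exact h8.2), (h9 j).resolve_right hj⟩
  · intro j hj i hij
    rw [Finset.mem_erase] at hj ⊢
    have hi : i ∉ S := fun hi => h2 i hi j hj.2 ⟨hij, fun h => hj.1 h.2⟩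
    exact ⟨fun h => hi (by rw [h]; exact h8.1), (h9 i).resolve_left hi⟩
  · intro j hj hne
    rw [Finset.mem_erase]
    have hj' : j ∉ T := fun hj' => h2 e h8.1 j hj' ⟨hj, fun h => hne h.2⟩
    exact ⟨hne, (h9 j).resolve_right hj'⟩
  · intro i hi hne
    rw [Finset.mem_erase]
    have hi' : i ∉ S := fun hi' => h2 i hi' e h8.2 ⟨hi, fun h => hne h.1⟩
    exact ⟨hne, (h9 i).resolve_left hi'⟩

private theorem C1_seven (a b c d e f g : Fin 6) (h : [a, b, c, d, e, f, g].Nodup) : False := by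
  have h1 := h.length_le_card
  simp at h1

private theorem C1_mix {X : Type} {a a' b b' m n : X} (ha : a ≠ a') (hb : b ≠ b')
    (h1 : a = m ∨ b = n) (h2 : a' = m ∨ b = n) (h3 : a = m ∨ b' = n) (h4 : a' = m ∨ b' = n) :
    False := by
  rcases eq_or_ne a m with e | e
  · have e' : a' ≠ m := fun h => ha (e.trans h.symm)
    exact hb ((h2.resolve_left e').trans (h4.resolve_left e').symm)
  · exact hb ((h1.resolve_left e).trans (h3.resolve_left e).symm)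

private theorem C1_same {X : Type} {a a' m n : X} (ha : a ≠ a') (hm : m ≠ n)
    (h1 : a = m ∨ a' = n) (h2 : a' = m ∨ a = n) : False := by
  rcases h1 with h1 | h1 <;> rcases h2 with h2 | h2
  · exact ha (h1.trans h2.symm)
  · exact hm (h1.symm.trans h2)
  · exact hm (h2.symm.trans h1)
  · exact ha (h2.trans h1.symm)

theorem c1 (A : Fin 6 → Fin 6 → Prop) (hA : Deg 2 A) (hPM : ∃ π : P6, ∀ i, A i (π i)) (μ : P6)
    (i1 i2 i3 i4 : Fin 6) (h12 : i1 ≠ i2) (h13 : i1 ≠ i3) (h14 : i1 ≠ i4) (h23 : i2 ≠ i3)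
    (h24 : i2 ≠ i4) (h34 : i3 ≠ i4) :
    ∃ π : P6, (∀ i, A i (π i)) ∧
      ¬ (π i1 = μ i1 ∧ π i2 = μ i2 ∧ (π i3 = μ i3 ∨ π i4 = μ i4)) := by
  classical
  by_contra hcon
  have H : ∀ π' : P6, (∀ i, A i (π' i)) →
      π' i1 = μ i1 ∧ π' i2 = μ i2 ∧ (π' i3 = μ i3 ∨ π' i4 = μ i4) := by
    intro π' h'
    by_contra h
    exact hcon ⟨π', h', h⟩
  obtain ⟨π, hπ⟩ := hPM
  obtain ⟨B, hB⟩ : ∃ B : Fin 6 → Fin 6 → Prop, ∀ i j, B i j ↔ A i (π j) := ⟨_, fun i j => Iff.rfl⟩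
  have hr : ∀ i, B i i := fun i => (hB i i).2 (hπ i)
  have hσ : ∀ σ : P6, (∀ i, B i (σ i)) →
      π (σ i1) = μ i1 ∧ π (σ i2) = μ i2 ∧ (π (σ i3) = μ i3 ∨ π (σ i4) = μ i4) := by
    intro σ h
    exact H (σ.trans π) fun i => (hB i (σ i)).1 (h i)
  have hid := hσ 1 hr
  have hout : ∀ i, ∃ j, j ≠ i ∧ B i j := by
    intro i
    obtain ⟨F, k1, k2⟩ := hA.1 i
    obtain ⟨t, ht, hne⟩ := Finset.exists_mem_ne (by omega : 1 < F.card) (π i)
    refine ⟨π.symm t, fun h => hne ?_, (hB _ _).2 ?_⟩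
    · rw [← h, Equiv.apply_symm_apply]
    · rw [Equiv.apply_symm_apply]
      exact k2 t ht
  have hin : ∀ j, ∃ i, i ≠ j ∧ B i j := by
    intro j
    obtain ⟨F, k1, k2⟩ := hA.2 (π j)
    obtain ⟨t, ht, hne⟩ := Finset.exists_mem_ne (by omega : 1 < F.card) j
    exact ⟨t, hne, (hB _ _).2 (k2 t ht)⟩
  obtain ⟨P1, Q1, a1, a2, a3, a4, a5, a6, a7⟩ := C1_side B hr i1 (by
    rintro ⟨σ, h1, h2⟩
    exact h2 (π.injective ((hσ σ h1).1.trans hid.1.symm)))
  obtain ⟨P2, Q2, b1, b2, b3, b4, b5, b6, b7⟩ := C1_side B hr i2 (by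
    rintro ⟨σ, h1, h2⟩
    exact h2 (π.injective ((hσ σ h1).2.1.trans hid.2.1.symm)))
  obtain ⟨P, hP0, hPc, hP1, hP2, hPs⟩ : ∃ P : Finset (Fin 6), P.Nonempty ∧
      (∀ i ∈ P, ∀ j, B i j → j ∈ P) ∧ i1 ∉ P ∧ i2 ∉ P ∧ ∀ i ∈ P, i ∈ P1 := by
    by_cases h : i2 ∈ P1
    · obtain ⟨j, j1, j2⟩ := hout i2
      refine ⟨P1 ∩ P2, ⟨j, Finset.mem_inter.2 ⟨a4 i2 h j j2, b6 j j2 j1⟩⟩, ?_, ?_, ?_, ?_⟩
      · intro i hi k hik
        rw [Finset.mem_inter] at hi ⊢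
        exact ⟨a4 i hi.1 k hik, b4 i hi.2 k hik⟩
      · exact fun h' => a1 (Finset.mem_inter.1 h').1
      · exact fun h' => b1 (Finset.mem_inter.1 h').2
      · exact fun i hi => (Finset.mem_inter.1 hi).1
    · obtain ⟨j, j1, j2⟩ := hout i1
      exact ⟨P1, ⟨j, a6 j j2 j1⟩, a4, a1, h, fun i hi => hi⟩
  obtain ⟨Q, hQ0, hQc, hQ1, hQ2, hQs⟩ : ∃ Q : Finset (Fin 6), Q.Nonempty ∧
      (∀ j ∈ Q, ∀ i, B i j → i ∈ Q) ∧ i1 ∉ Q ∧ i2 ∉ Q ∧ ∀ i ∈ Q, i ∈ Q1 := by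
    by_cases h : i2 ∈ Q1
    · obtain ⟨j, j1, j2⟩ := hin i2
      refine ⟨Q1 ∩ Q2, ⟨j, Finset.mem_inter.2 ⟨a5 i2 h j j2, b7 j j2 j1⟩⟩, ?_, ?_, ?_, ?_⟩
      · intro i hi k hik
        rw [Finset.mem_inter] at hi ⊢
        exact ⟨a5 i hi.1 k hik, b5 i hi.2 k hik⟩
      · exact fun h' => a2 (Finset.mem_inter.1 h').1
      · exact fun h' => b2 (Finset.mem_inter.1 h').2
      · exact fun i hi => (Finset.mem_inter.1 hi).1
    · obtain ⟨j, j1, j2⟩ := hin i1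
      exact ⟨Q1, ⟨j, a7 j j2 j1⟩, a5, a2, h, fun i hi => hi⟩
  have hPQ : ∀ i ∈ P, ∀ j ∈ Q, i ≠ j := by
    intro i hi j hj h
    rw [h] at hi
    exact a3 j (hPs j hi) (hQs j hj)
  have nP1 : ∀ i ∈ P, i1 ≠ i := fun i hi h => hP1 (by rw [h]; exact hi)
  have nP2 : ∀ i ∈ P, i2 ≠ i := fun i hi h => hP2 (by rw [h]; exact hi)
  have nQ1 : ∀ i ∈ Q, i1 ≠ i := fun i hi h => hQ1 (by rw [h]; exact hi)
  have nQ2 : ∀ i ∈ Q, i2 ≠ i := fun i hi h => hQ2 (by rw [h]; exact hi)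
  obtain ⟨x, hx⟩ := hP0
  obtain ⟨x', hx1, hx2⟩ := hout x
  have hx' := hPc x hx x' hx2
  obtain ⟨y, hy⟩ := hQ0
  obtain ⟨y', hy1, hy2⟩ := hin y
  have hy' := hQc y hy y' hy2
  have hx3 : B x' x := by
    obtain ⟨z, hz1, hz2⟩ := hout x'
    have hz := hPc x' hx' z hz2
    by_cases hzx : z = x
    · rwa [hzx] at hz2
    · exfalso
      refine C1_seven i1 i2 x x' z y y' ?_
      simp only [List.nodup_cons, List.mem_cons, List.not_mem_nil, or_false, not_or,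
        List.nodup_nil, and_true, not_false_eq_true]
      exact ⟨⟨h12, nP1 _ hx, nP1 _ hx', nP1 _ hz, nQ1 _ hy, nQ1 _ hy'⟩,
        ⟨nP2 _ hx, nP2 _ hx', nP2 _ hz, nQ2 _ hy, nQ2 _ hy'⟩,
        ⟨hx1.symm, fun h => hzx h.symm, hPQ _ hx _ hy, hPQ _ hx _ hy'⟩,
        ⟨hz1.symm, hPQ _ hx' _ hy, hPQ _ hx' _ hy'⟩,
        ⟨hPQ _ hz _ hy, hPQ _ hz _ hy'⟩, hy1.symm⟩
  have hy3 : B y y' := by
    obtain ⟨z, hz1, hz2⟩ := hin y'
    have hz := hQc y' hy' z hz2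
    by_cases hzy : z = y
    · rwa [hzy] at hz2
    · exfalso
      refine C1_seven i1 i2 x x' z y y' ?_
      simp only [List.nodup_cons, List.mem_cons, List.not_mem_nil, or_false, not_or,
        List.nodup_nil, and_true, not_false_eq_true]
      exact ⟨⟨h12, nP1 _ hx, nP1 _ hx', nQ1 _ hz, nQ1 _ hy, nQ1 _ hy'⟩,
        ⟨nP2 _ hx, nP2 _ hx', nQ2 _ hz, nQ2 _ hy, nQ2 _ hy'⟩,
        ⟨hx1.symm, hPQ _ hx _ hz, hPQ _ hx _ hy, hPQ _ hx _ hy'⟩,
        ⟨hPQ _ hx' _ hz, hPQ _ hx' _ hy, hPQ _ hx' _ hy'⟩,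
        ⟨hzy, hz1⟩, hy1.symm⟩
  have hcov : ∀ i, i1 ≠ i → i2 ≠ i → (i = x ∨ i = x') ∨ (i = y ∨ i = y') := by
    intro i n1 n2
    by_contra hc
    simp only [not_or] at hc
    obtain ⟨⟨c1, c2⟩, c3, c4⟩ := hc
    refine C1_seven i1 i2 x x' i y y' ?_
    simp only [List.nodup_cons, List.mem_cons, List.not_mem_nil, or_false, not_or,
      List.nodup_nil, and_true, not_false_eq_true]
    exact ⟨⟨h12, nP1 _ hx, nP1 _ hx', n1, nQ1 _ hy, nQ1 _ hy'⟩,
      ⟨nP2 _ hx, nP2 _ hx', n2, nQ2 _ hy, nQ2 _ hy'⟩,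
      ⟨hx1.symm, fun h => c1 h.symm, hPQ _ hx _ hy, hPQ _ hx _ hy'⟩,
      ⟨fun h => c2 h.symm, hPQ _ hx' _ hy, hPQ _ hx' _ hy'⟩,
      ⟨c3, c4⟩, hy1.symm⟩
  have nxy := hPQ _ hx _ hy
  have nxy' := hPQ _ hx _ hy'
  have nx'y := hPQ _ hx' _ hy
  have nx'y' := hPQ _ hx' _ hy'
  have s1 : ∀ i, B i (Equiv.swap x x' i) := by
    intro i
    by_cases e1 : i = x
    · rw [e1, Equiv.swap_apply_left]
      exact hx2
    · by_cases e2 : i = x'
      · rw [e2, Equiv.swap_apply_right]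
        exact hx3
      · rw [Equiv.swap_apply_of_ne_of_ne e1 e2]
        exact hr i
  have s2 : ∀ i, B i (Equiv.swap y y' i) := by
    intro i
    by_cases e1 : i = y
    · rw [e1, Equiv.swap_apply_left]
      exact hy3
    · by_cases e2 : i = y'
      · rw [e2, Equiv.swap_apply_right]
        exact hy2
      · rw [Equiv.swap_apply_of_ne_of_ne e1 e2]
        exact hr i
  have fX : ∀ i, i = x ∨ i = x' → Equiv.swap y y' i = i ∧ Equiv.swap x x' i ≠ i := by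
    rintro i (rfl | rfl)
    · exact ⟨Equiv.swap_apply_of_ne_of_ne nxy nxy', by rw [Equiv.swap_apply_left]; exact hx1⟩
    · exact ⟨Equiv.swap_apply_of_ne_of_ne nx'y nx'y', by
        rw [Equiv.swap_apply_right]; exact hx1.symm⟩
  have fY : ∀ i, i = y ∨ i = y' → Equiv.swap x x' i = i ∧ Equiv.swap y y' i ≠ i := by
    rintro i (rfl | rfl)
    · exact ⟨Equiv.swap_apply_of_ne_of_ne nxy.symm nx'y.symm, by
        rw [Equiv.swap_apply_left]; exact hy1⟩
    · exact ⟨Equiv.swap_apply_of_ne_of_ne nxy'.symm nx'y'.symm, by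
        rw [Equiv.swap_apply_right]; exact hy1.symm⟩
  have s12 : ∀ i, B i ((Equiv.swap x x' * Equiv.swap y y') i) := by
    intro i
    rw [Equiv.Perm.mul_apply]
    by_cases e1 : i = y ∨ i = y'
    · have e2 : Equiv.swap y y' i = y ∨ Equiv.swap y y' i = y' := by
        rcases e1 with rfl | rfl
        · exact Or.inr (Equiv.swap_apply_left _ _)
        · exact Or.inl (Equiv.swap_apply_right _ _)
      rw [(fY _ e2).1]
      exact s2 i
    · simp only [not_or] at e1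
      rw [Equiv.swap_apply_of_ne_of_ne e1.1 e1.2]
      exact s1 i
  have k1 := (hσ _ s1).2.2
  have k2 := (hσ _ s2).2.2
  have k12 := (hσ _ s12).2.2
  have k0 := hid.2.2
  rw [Equiv.Perm.one_apply, Equiv.Perm.one_apply] at k0
  rw [Equiv.Perm.mul_apply, Equiv.Perm.mul_apply] at k12
  have hμ : μ i3 ≠ μ i4 := fun h => h34 (μ.injective h)
  have hpi : ∀ {a b : Fin 6}, a ≠ b → π a ≠ π b := fun h h' => h (π.injective h')
  rcases hcov i3 h13 h23 with u3 | u3 <;> rcases hcov i4 h14 h24 with u4 | u4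
  · skip
    have e3 : Equiv.swap x x' i3 = i4 := by
      rcases u3 with rfl | rfl <;> rcases u4 with h | h
      · exact absurd h.symm h34
      · rw [Equiv.swap_apply_left, h]
      · rw [Equiv.swap_apply_right, h]
      · exact absurd h.symm h34
    have e4 : Equiv.swap x x' i4 = i3 := by rw [← e3, Equiv.swap_apply_self]
    rw [e3, e4] at k1
    exact C1_same (hpi h34) hμ k0 k1
  · rw [(fY _ u4).1] at k1
    rw [(fX _ u3).1] at k2
    rw [(fX _ u3).1] at k12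
    have e4 : Equiv.swap y y' i4 = y ∨ Equiv.swap y y' i4 = y' := by
      rcases u4 with rfl | rfl
      · exact Or.inr (Equiv.swap_apply_left _ _)
      · exact Or.inl (Equiv.swap_apply_right _ _)
    rw [(fY _ e4).1] at k12
    exact C1_mix (hpi (fX _ u3).2.symm) (hpi (fY _ u4).2.symm) k0 k1 k2 k12
  · rw [(fY _ u3).1] at k1
    rw [(fX _ u4).1] at k2
    rw [(fX _ u4).1] at k12
    have e3 : Equiv.swap y y' i3 = y ∨ Equiv.swap y y' i3 = y' := by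
      rcases u3 with rfl | rfl
      · exact Or.inr (Equiv.swap_apply_left _ _)
      · exact Or.inl (Equiv.swap_apply_right _ _)
    rw [(fY _ e3).1] at k12
    exact C1_mix (hpi (fX _ u4).2.symm) (hpi (fY _ u3).2.symm) k0.symm k1.symm k2.symm k12.symm
  · have e3 : Equiv.swap y y' i3 = i4 := by
      rcases u3 with rfl | rfl <;> rcases u4 with h | h
      · exact absurd h.symm h34
      · rw [Equiv.swap_apply_left, h]
      · rw [Equiv.swap_apply_right, h]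
      · exact absurd h.symm h34
    have e4 : Equiv.swap y y' i4 = i3 := by rw [← e3, Equiv.swap_apply_self]
    rw [e3, e4] at k2
    exact C1_same (hpi h34) hμ k0 k2

end Pool.Agent.PKF
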