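import Pool.Agent.PKF.Hall

/-!
PKF-Cand (MP_36eb6d_co).  The shape of four permutations to which no permutation is disjoint.

Plan.  `R i = {a i, b i, c i}` is the set of the three values in row `i`;
`X t = {a⁻¹ t, b⁻¹ t, c⁻¹ t}` is the set of the rows in which `t` occurs.
* `bad_cases`: `hall_rect` for `A i t := t ≠ a i ∧ t ≠ b i ∧ t ≠ c i ∧ t ≠ d i`: there are `S, T` with
  `|S| + |T| ≥ 7` and `T ⊆ {a i, b i, c i, d i}` for all `i ∈ S`; and `S ⊆ {a⁻¹ t, b⁻¹ t, c⁻¹ t, d⁻¹ t}` for
  all `t ∈ T`.  So `|S|, |T| ≤ 4`.  If `|T| = 4`, take a 3-subset of `S` (first alternative: the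
  four values are distinct as they fill the 4-set `T`).  If `|T| = 3` then `|S| = 4`: second
  alternative.
* `cand_unique`: `T` has 4 elements, three of which are `a i, b i, c i`.
* `cand_AA`: suppose `T ≠ T'`, so `|T ∩ T'| ≤ 3`.  For `i ∈ S ∩ S'`, `R i ⊆ T ∩ T'` has 3 elements, so
  `R i = T ∩ T'`, so `d i` is the unique element of `T \ T'`; as `d` is injective, `|S ∩ S'| ≤ 1`.
  Case `|S ∩ S'| = 1`: then `|T ∩ T'| = 3`, `|T ∪ T'| = 5 = |S ∪ S'|`; each of `a, b, c` maps `S ∪ S'` into
  `T ∪ T'`, hence onto it; for `t0 ∈ T \ T'` the rows `a⁻¹ t0, b⁻¹ t0, c⁻¹ t0` lie in `S ∪ S'` and not in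
  `S'` (rows of `S'` have their values in `T'`), so in `S \ S'`, which has 2 elements; and they are
  distinct since `a i, b i, c i` are distinct for `i ∈ S`: contradiction.
  Case `S ∩ S' = ∅`: `S ∪ S' = univ`, so `T ∪ T' = univ` (`a` is injective), `|T ∩ T'| = 2`,
  `T \ T' = {t1, t2}`; as before the three distinct rows `a⁻¹ t1, b⁻¹ t1, c⁻¹ t1` lie in `S`, so they
  are all of `S`, and the same for `t2`; so for `i ∈ S`, `t1, t2 ∈ R i`, `d i ≠ t1, t2`, so
  `d i ∈ T ∩ T'`, for the three `i ∈ S`: contradiction to the injectivity of `d`.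
* `cand_AC`: suppose `t ∈ T'`, `t ∉ T`.  The three distinct rows of `X t` are not in `S` (rows of `S` have
  values in `T`), so `X t = Sᶜ`, and `X t ⊆ S'`, so `|S' ∩ S| = 1`.  Let `t' ∈ T'`, `t' ≠ t`.
  If `t' ∉ T` then also `X t' = Sᶜ = X t`, and `e t`, `e t'` are both the element of `S' \ Sᶜ`:
  contradiction to the injectivity of `e`.  If `t' ∈ T`: `t'` is in `R i` for every `i ∈ S` with
  `d i ≠ t'`, that is for at least two `i ∈ S`, and these are in `X t' ⊆ S'`: contradiction to
  `|S' ∩ S| = 1`.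
-/

set_option autoImplicit false

namespace Pool.Agent.PKF

private theorem cand_ia (a : P6) (i : Fin 6) : a⁻¹ (a i) = i := a.symm_apply_apply i

private theorem cand_ai (a : P6) (i : Fin 6) : a (a⁻¹ i) = i := a.apply_symm_apply i

private theorem cand_four {T : Finset (Fin 6)} {w x y z : Fin 6}
    (hT : ∀ t ∈ T, t = w ∨ t = x ∨ t = y ∨ t = z) (hc : 4 ≤ T.card) :
    T.card = 4 ∧ w ∈ T ∧ x ∈ T ∧ y ∈ T ∧ z ∈ T ∧
      w ≠ x ∧ w ≠ y ∧ w ≠ z ∧ x ≠ y ∧ x ≠ z ∧ y ≠ z := by
  have hs : T ⊆ {w, x, y, z} := by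
    intro t ht
    simp only [Finset.mem_insert, Finset.mem_singleton]
    exact hT t ht
  have h4 : ({w, x, y, z} : Finset (Fin 6)).card ≤ 4 := Finset.card_le_four
  have he : T = {w, x, y, z} := Finset.eq_of_subset_of_card_le hs (by omega)
  have h3 : ∀ p q r : Fin 6, ¬ ∀ t ∈ T, t = p ∨ t = q ∨ t = r := by
    intro p q r h
    have h5 : T ⊆ {p, q, r} := by
      intro t ht
      simp only [Finset.mem_insert, Finset.mem_singleton]
      exact h t ht
    have h6 := Finset.card_le_card h5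
    have h7 : ({p, q, r} : Finset (Fin 6)).card ≤ 3 := Finset.card_le_three
    omega
  have h8 : T.card = 4 := by
    have := Finset.card_le_card hs
    omega
  refine ⟨h8, by simp [he], by simp [he], by simp [he], by simp [he], ?_, ?_, ?_, ?_, ?_, ?_⟩
  · intro e
    refine h3 x y z fun t ht => ?_
    rcases hT t ht with h | h | h | h
    · exact Or.inl (h.trans e)
    · exact Or.inl h
    · exact Or.inr (Or.inl h)
    · exact Or.inr (Or.inr h)
  · intro e
    refine h3 x y z fun t ht => ?_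
    rcases hT t ht with h | h | h | h
    · exact Or.inr (Or.inl (h.trans e))
    · exact Or.inl h
    · exact Or.inr (Or.inl h)
    · exact Or.inr (Or.inr h)
  · intro e
    refine h3 x y z fun t ht => ?_
    rcases hT t ht with h | h | h | h
    · exact Or.inr (Or.inr (h.trans e))
    · exact Or.inl h
    · exact Or.inr (Or.inl h)
    · exact Or.inr (Or.inr h)
  · intro e
    refine h3 w y z fun t ht => ?_
    rcases hT t ht with h | h | h | h
    · exact Or.inl h
    · exact Or.inr (Or.inl (h.trans e))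
    · exact Or.inr (Or.inl h)
    · exact Or.inr (Or.inr h)
  · intro e
    refine h3 w y z fun t ht => ?_
    rcases hT t ht with h | h | h | h
    · exact Or.inl h
    · exact Or.inr (Or.inr (h.trans e))
    · exact Or.inr (Or.inl h)
    · exact Or.inr (Or.inr h)
  · intro e
    refine h3 w x z fun t ht => ?_
    rcases hT t ht with h | h | h | h
    · exact Or.inl h
    · exact Or.inr (Or.inl h)
    · exact Or.inr (Or.inr (h.trans e))
    · exact Or.inr (Or.inr h)

private theorem cand_card6 (S : Finset (Fin 6)) : S.card ≤ 6 :=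
  (Finset.card_le_univ _).trans (by rw [Fintype.card_fin])

theorem bad_cases (a b c d : P6) (h : Bad4 a b c d) :
    (∃ S T, Cand a b c d S T) ∨ (∃ S T, Cand a⁻¹ b⁻¹ c⁻¹ d⁻¹ S T) := by
  obtain ⟨S, T, h7, hST⟩ :=
    hall_rect (fun i t => t ≠ a i ∧ t ≠ b i ∧ t ≠ c i ∧ t ≠ d i) h
  have hcell : ∀ i ∈ S, ∀ t ∈ T, t = a i ∨ t = b i ∨ t = c i ∨ t = d i := by
    intro i hi t ht
    by_contra hc
    exact hST i hi t ht ⟨fun e => hc (Or.inl e), fun e => hc (Or.inr (Or.inl e)),
      fun e => hc (Or.inr (Or.inr (Or.inl e))), fun e => hc (Or.inr (Or.inr (Or.inr e)))⟩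
  have hcell' : ∀ t ∈ T, ∀ i ∈ S, i = a⁻¹ t ∨ i = b⁻¹ t ∨ i = c⁻¹ t ∨ i = d⁻¹ t := by
    intro t ht i hi
    rcases hcell i hi t ht with e | e | e | e
    · exact Or.inl (by rw [e, cand_ia])
    · exact Or.inr (Or.inl (by rw [e, cand_ia]))
    · exact Or.inr (Or.inr (Or.inl (by rw [e, cand_ia])))
    · exact Or.inr (Or.inr (Or.inr (by rw [e, cand_ia])))
  have hS6 := cand_card6 S
  have hT6 := cand_card6 T
  by_cases h4 : 4 ≤ T.card
  · left
    have hT4 : T.card = 4 := by
      obtain ⟨i, hi⟩ := Finset.card_pos.1 (show 0 < S.card by omega)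
      exact (cand_four (hcell i hi) h4).1
    obtain ⟨S', hS', hc3⟩ := Finset.exists_subset_card_eq (show 3 ≤ S.card by omega)
    refine ⟨S', T, hc3, hT4, fun i hi => ?_⟩
    exact (cand_four (hcell i (hS' hi)) h4).2
  · right
    have hS4 : 4 ≤ S.card := by omega
    obtain ⟨t, ht⟩ := Finset.card_pos.1 (show 0 < T.card by omega)
    have hS4' : S.card = 4 := (cand_four (hcell' t ht) hS4).1
    exact ⟨T, S, by omega, hS4', fun t ht => (cand_four (hcell' t ht) hS4).2⟩

private theorem cand_fill {a b c d : P6} {S T : Finset (Fin 6)} (h : Cand a b c d S T) {i : Fin 6}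
    (hi : i ∈ S) {x : Fin 6} (hx : x ∈ T) : x = a i ∨ x = b i ∨ x = c i ∨ x = d i := by
  obtain ⟨-, hT, hc⟩ := h
  obtain ⟨ha, hb, hcc, hd, h1, h2, h3, h4, h5, h6⟩ := hc i hi
  have hs : ({a i, b i, c i, d i} : Finset (Fin 6)) ⊆ T := by
    intro t ht
    simp only [Finset.mem_insert, Finset.mem_singleton] at ht
    rcases ht with e | e | e | e
    · rw [e]; exact ha
    · rw [e]; exact hb
    · rw [e]; exact hcc
    · rw [e]; exact hd
  have hcard : ({a i, b i, c i, d i} : Finset (Fin 6)).card = 4 := by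
    rw [Finset.card_insert_of_notMem, Finset.card_insert_of_notMem,
      Finset.card_insert_of_notMem, Finset.card_singleton]
    · simpa using h6
    · simp only [Finset.mem_insert, Finset.mem_singleton, not_or]
      exact ⟨h4, h5⟩
    · simp only [Finset.mem_insert, Finset.mem_singleton, not_or]
      exact ⟨h1, h2, h3⟩
  have he : ({a i, b i, c i, d i} : Finset (Fin 6)) = T :=
    Finset.eq_of_subset_of_card_le hs (by omega)
  rw [← he] at hx
  simpa only [Finset.mem_insert, Finset.mem_singleton] using hx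

theorem cand_unique {a b c d : P6} {S T : Finset (Fin 6)} (h : Cand a b c d S T) {i : Fin 6}
    (hi : i ∈ S) {x : Fin 6} (hx : x ∈ T) (ha : x ≠ a i) (hb : x ≠ b i) (hc : x ≠ c i) :
    x = d i := by
  rcases cand_fill h hi hx with e | e | e | e
  · exact absurd e ha
  · exact absurd e hb
  · exact absurd e hc
  · exact e

private theorem cand_onto (a : P6) {U V : Finset (Fin 6)} (h : ∀ i ∈ U, a i ∈ V)
    (hc : V.card ≤ U.card) : ∀ t ∈ V, a⁻¹ t ∈ U := by
  classical
  have h1 : U.image a = V := by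
    refine Finset.eq_of_subset_of_card_le ?_ ?_
    · intro t ht
      obtain ⟨i, hi, e⟩ := Finset.mem_image.1 ht
      rw [← e]
      exact h i hi
    · rw [Finset.card_image_of_injective _ a.injective]
      exact hc
  intro t ht
  rw [← h1] at ht
  obtain ⟨i, hi, e⟩ := Finset.mem_image.1 ht
  rw [← e, cand_ia]
  exact hi

private theorem cand_three {U : Finset (Fin 6)} {x y z : Fin 6} (hx : x ∈ U) (hy : y ∈ U)
    (hz : z ∈ U) (hxy : x ≠ y) (hxz : x ≠ z) (hyz : y ≠ z) : 3 ≤ U.card := by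
  have h1 : ({x, y, z} : Finset (Fin 6)) ⊆ U := by
    intro t ht
    simp only [Finset.mem_insert, Finset.mem_singleton] at ht
    rcases ht with e | e | e
    · rw [e]; exact hx
    · rw [e]; exact hy
    · rw [e]; exact hz
  have h2 : ({x, y, z} : Finset (Fin 6)).card = 3 := by
    rw [Finset.card_insert_of_notMem, Finset.card_insert_of_notMem, Finset.card_singleton]
    · simpa using hyz
    · simp only [Finset.mem_insert, Finset.mem_singleton, not_or]
      exact ⟨hxy, hxz⟩
  have h3 := Finset.card_le_card h1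
  omega

private theorem cand_three' {U : Finset (Fin 6)} {x y z : Fin 6} (hU : U.card ≤ 3) (hx : x ∈ U)
    (hy : y ∈ U) (hz : z ∈ U) (hxy : x ≠ y) (hxz : x ≠ z) (hyz : y ≠ z) :
    ∀ w ∈ U, w = x ∨ w = y ∨ w = z := by
  have h1 : ({x, y, z} : Finset (Fin 6)) ⊆ U := by
    intro t ht
    simp only [Finset.mem_insert, Finset.mem_singleton] at ht
    rcases ht with e | e | e
    · rw [e]; exact hx
    · rw [e]; exact hy
    · rw [e]; exact hz
  have h2 : ({x, y, z} : Finset (Fin 6)).card = 3 := by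
    rw [Finset.card_insert_of_notMem, Finset.card_insert_of_notMem, Finset.card_singleton]
    · simpa using hyz
    · simp only [Finset.mem_insert, Finset.mem_singleton, not_or]
      exact ⟨hxy, hxz⟩
  have h3 := Finset.eq_of_subset_of_card_le h1 (by omega)
  intro w hw
  rw [← h3] at hw
  simpa only [Finset.mem_insert, Finset.mem_singleton] using hw

theorem cand_AA {a b c d d' : P6} {S T S' T' : Finset (Fin 6)} (h : Cand a b c d S T)
    (h' : Cand a b c d' S' T') : T = T' := by
  classical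
  by_contra hne
  obtain ⟨hS, hT, hc⟩ := h
  obtain ⟨hS', hT', hc'⟩ := h'
  have hTT : (T ∩ T').card + (T ∪ T').card = 8 := by
    have := Finset.card_inter_add_card_union T T'
    omega
  have hSS : (S ∩ S').card + (S ∪ S').card = 6 := by
    have := Finset.card_inter_add_card_union S S'
    omega
  have hTI : (T ∩ T').card ≤ 3 := by
    by_contra hh
    have e1 : T ∩ T' = T := Finset.eq_of_subset_of_card_le Finset.inter_subset_left (by omega)
    have e2 : T ∩ T' = T' := Finset.eq_of_subset_of_card_le Finset.inter_subset_right (by omega)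
    exact hne (e1.symm.trans e2)
  -- a common row
  have hcom : ∀ i ∈ S ∩ S', 3 ≤ (T ∩ T').card ∧ d i ∈ T \ T' := by
    intro i hi
    rw [Finset.mem_inter] at hi
    obtain ⟨ha, hb, hcc, hd, h1, h2, h3, h4, h5, h6⟩ := hc i hi.1
    obtain ⟨ha', hb', hcc', -, -, -, -, -, -, -⟩ := hc' i hi.2
    have hA : a i ∈ T ∩ T' := Finset.mem_inter.2 ⟨ha, ha'⟩
    have hB : b i ∈ T ∩ T' := Finset.mem_inter.2 ⟨hb, hb'⟩
    have hC : c i ∈ T ∩ T' := Finset.mem_inter.2 ⟨hcc, hcc'⟩
    refine ⟨cand_three hA hB hC h1 h2 h4, ?_⟩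
    rw [Finset.mem_sdiff]
    refine ⟨hd, fun hd' => ?_⟩
    rcases cand_three' hTI hA hB hC h1 h2 h4 (d i) (Finset.mem_inter.2 ⟨hd, hd'⟩) with e | e | e
    · exact h3 e.symm
    · exact h5 e.symm
    · exact h6 e.symm
  have hTD : (T \ T').card + (T ∩ T').card = 4 := by
    have := Finset.card_sdiff_add_card_inter T T'
    omega
  have hSD : (S \ S').card + (S ∩ S').card = 3 := by
    have := Finset.card_sdiff_add_card_inter S S'
    omega
  have hle : (T ∪ T').card ≤ (S ∪ S').card := by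
    by_cases h0 : (S ∩ S').card = 0
    · have := cand_card6 (T ∪ T')
      omega
    · obtain ⟨i, hi⟩ := Finset.card_pos.1 (show 0 < (S ∩ S').card by omega)
      have h1 : (T \ T').card ≤ 1 := by
        have := (hcom i hi).1
        omega
      have h2 : (S ∩ S').card ≤ (T \ T').card :=
        Finset.card_le_card_of_injOn (fun i => d i) (fun j hj => (hcom j hj).2)
          (fun x _ y _ e => d.injective e)
      have := (hcom i hi).1
      omega
  have hrow : ∀ p : P6, (∀ i ∈ S, p i ∈ T) → (∀ i ∈ S', p i ∈ T') → ∀ t ∈ T \ T',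
      p⁻¹ t ∈ S \ S' := by
    intro p hp hp' t ht
    rw [Finset.mem_sdiff] at ht
    have h1 : p⁻¹ t ∈ S ∪ S' := by
      refine cand_onto p (V := T ∪ T') (fun i hi => ?_) hle t (Finset.mem_union_left _ ht.1)
      rcases Finset.mem_union.1 hi with hi | hi
      · exact Finset.mem_union_left _ (hp i hi)
      · exact Finset.mem_union_right _ (hp' i hi)
    have h2 : p⁻¹ t ∉ S' := by
      intro h3
      have h4 := hp' _ h3
      rw [cand_ai] at h4
      exact ht.2 h4
    rcases Finset.mem_union.1 h1 with h3 | h3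
    · exact Finset.mem_sdiff.2 ⟨h3, h2⟩
    · exact absurd h3 h2
  have hra := hrow a (fun i hi => (hc i hi).1) (fun i hi => (hc' i hi).1)
  have hrb := hrow b (fun i hi => (hc i hi).2.1) (fun i hi => (hc' i hi).2.1)
  have hrc := hrow c (fun i hi => (hc i hi).2.2.1) (fun i hi => (hc' i hi).2.2.1)
  have hdis : ∀ p q : P6, (∀ i ∈ S, p i ≠ q i) → ∀ t, p⁻¹ t ∈ S → p⁻¹ t ≠ q⁻¹ t := by
    intro p q hpq t ht e
    refine hpq _ ht ?_
    rw [cand_ai, e, cand_ai]
  have hab := hdis a b (fun i hi => (hc i hi).2.2.2.2.1)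
  have hac := hdis a c (fun i hi => (hc i hi).2.2.2.2.2.1)
  have hbc := hdis b c (fun i hi => (hc i hi).2.2.2.2.2.2.2.1)
  obtain ⟨t0, ht0⟩ := Finset.card_pos.1 (show 0 < (T \ T').card by omega)
  have h3 : 3 ≤ (S \ S').card :=
    cand_three (hra t0 ht0) (hrb t0 ht0) (hrc t0 ht0)
      (hab t0 (Finset.mem_sdiff.1 (hra t0 ht0)).1) (hac t0 (Finset.mem_sdiff.1 (hra t0 ht0)).1)
      (hbc t0 (Finset.mem_sdiff.1 (hrb t0 ht0)).1)
  have hdT : ∀ i ∈ S, d i ∈ T ∩ T' := by
    intro i hi
    obtain ⟨-, -, -, hd, -, -, h3, -, h5, h6⟩ := hc i hi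
    refine Finset.mem_inter.2 ⟨hd, ?_⟩
    by_contra hd'
    have ht : d i ∈ T \ T' := Finset.mem_sdiff.2 ⟨hd, hd'⟩
    have h7 := cand_three' (U := S) (by omega) (Finset.mem_sdiff.1 (hra _ ht)).1
      (Finset.mem_sdiff.1 (hrb _ ht)).1 (Finset.mem_sdiff.1 (hrc _ ht)).1
      (hab _ (Finset.mem_sdiff.1 (hra _ ht)).1) (hac _ (Finset.mem_sdiff.1 (hra _ ht)).1)
      (hbc _ (Finset.mem_sdiff.1 (hrb _ ht)).1) i hi
    rcases h7 with e | e | e
    · exact h3 (by rw [Equiv.Perm.eq_inv_iff_eq] at e; exact e)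
    · exact h5 (by rw [Equiv.Perm.eq_inv_iff_eq] at e; exact e)
    · exact h6 (by rw [Equiv.Perm.eq_inv_iff_eq] at e; exact e)
  have h8 : S.card ≤ (T ∩ T').card :=
    Finset.card_le_card_of_injOn (fun i => d i) (fun j hj => hdT j hj)
      (fun x _ y _ e => d.injective e)
  have h9 : (S ∪ S').card ≤ (T ∪ T').card := by
    refine Finset.card_le_card_of_injOn (fun i => a i) (fun i hi => ?_)
      (fun x _ y _ e => a.injective e)
    rcases Finset.mem_union.1 hi with hi | hi
    · exact Finset.mem_union_left _ (hc i hi).1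
    · exact Finset.mem_union_right _ (hc' i hi).1
  omega

theorem cand_AC {a b c d e : P6} {S T S' T' : Finset (Fin 6)} (h : Cand a b c d S T)
    (h' : Cand a⁻¹ b⁻¹ c⁻¹ e T' S') : T' ⊆ T := by
  classical
  have hfill := fun (i : Fin 6) (hi : i ∈ S) (x : Fin 6) (hx : x ∈ T) => cand_fill h hi hx
  obtain ⟨hS, hT, hc⟩ := h
  obtain ⟨hT', hS', hc'⟩ := h'
  intro t ht
  by_contra htT
  have hSc : Sᶜ.card = 3 := by
    have := Finset.card_compl_add_card S
    rw [Fintype.card_fin] at this
    omega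
  have hout : ∀ p : P6, (∀ i ∈ S, p i ∈ T) → ∀ x, x ∉ T → p⁻¹ x ∈ Sᶜ := by
    intro p hp x hx
    rw [Finset.mem_compl]
    intro h1
    have h2 := hp _ h1
    rw [cand_ai] at h2
    exact hx h2
  have hoa := hout a (fun i hi => (hc i hi).1)
  have hob := hout b (fun i hi => (hc i hi).2.1)
  have hoc := hout c (fun i hi => (hc i hi).2.2.1)
  -- for a column of `T'` outside `T` the complement of `S` is in `S'` and the row `e x` is in `S`
  have hkey : ∀ x ∈ T', x ∉ T → Sᶜ ⊆ S' ∧ e x ∈ S' ∩ S := by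
    intro x hx hxT
    obtain ⟨ha, hb, hcc, he, h1, h2, h3, h4, h5, h6⟩ := hc' x hx
    have h7 := cand_three' (U := Sᶜ) (by omega) (hoa x hxT) (hob x hxT) (hoc x hxT) h1 h2 h4
    refine ⟨fun i hi => ?_, Finset.mem_inter.2 ⟨he, ?_⟩⟩
    · rcases h7 i hi with e1 | e1 | e1
      · rw [e1]; exact ha
      · rw [e1]; exact hb
      · rw [e1]; exact hcc
    · by_contra heS
      rcases h7 (e x) (Finset.mem_compl.2 heS) with e1 | e1 | e1
      · exact h3 e1.symm
      · exact h5 e1.symm
      · exact h6 e1.symm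
  obtain ⟨hsub, het⟩ := hkey t ht htT
  have hone : (S' ∩ S).card ≤ 1 := by
    have h1 : (S' \ S).card + (S' ∩ S).card = S'.card := Finset.card_sdiff_add_card_inter S' S
    have h2 : Sᶜ ⊆ S' \ S := fun i hi => Finset.mem_sdiff.2 ⟨hsub hi, Finset.mem_compl.1 hi⟩
    have h3 := Finset.card_le_card h2
    omega
  obtain ⟨t', ht', hne⟩ : ∃ t' ∈ T', t' ≠ t := by
    by_contra hh
    have h1 : T' ⊆ {t} := by
      intro x hx
      rw [Finset.mem_singleton]
      by_contra hx'
      exact hh ⟨x, hx, hx'⟩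
    have h2 := Finset.card_le_card h1
    rw [Finset.card_singleton] at h2
    omega
  by_cases htT' : t' ∈ T
  · obtain ⟨ha, hb, hcc, -, -, -, -, -, -, -⟩ := hc' t' ht'
    have h1 : S.erase (d⁻¹ t') ⊆ S' ∩ S := by
      intro i hi
      rw [Finset.mem_erase] at hi
      refine Finset.mem_inter.2 ⟨?_, hi.2⟩
      rcases hfill i hi.2 t' htT' with e1 | e1 | e1 | e1
      · rw [e1, cand_ia] at ha; exact ha
      · rw [e1, cand_ia] at hb; exact hb
      · rw [e1, cand_ia] at hcc; exact hcc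
      · exact absurd (by rw [e1, cand_ia]) hi.1
    have h2 := Finset.card_le_card h1
    have h3 := Finset.pred_card_le_card_erase (s := S) (a := d⁻¹ t')
    omega
  · have h1 := (hkey t' ht' htT').2
    have h2 : e t' = e t := Finset.card_le_one.1 hone _ h1 _ het
    exact hne (e.injective h2)

end Pool.Agent.PKF
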