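import Pool.Agent.PKF.Defs

/-!
PKF-Cnt (MP_36eb6d_co).  Two counts of permutations of six elements.

Plan (finite computation in the kernel; no `native_decide`).
* Encode `s : P6` by the list `phi s = [s 0, ..., s 5]` of natural numbers (injective in `s`).  Let
  `allL` be the list of the 720 arrangements (computed by a small recursive function, or a literal);
  check with `decide +kernel` that `allL` has no duplicates, has length 720 and that its members have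
  length 6, entries below 6 and no duplicates.  Every such list is `phi s` for an `s` (the function
  `i ↦ l[i]` is injective, hence bijective).  As `|P6| = 720`, also every `phi s` is in `allL`.  So
  counts over `P6` are counts over `allL` (`card_filter = countP`).
* `cnt_avoid2`: `s ↦ q1⁻¹ * s` reduces to `q1 = 1`.  Then `decide +kernel` over `q ∈ allL` of
  `80 ≤ countP (disjoint from q) derL`, `derL` the literal list of the 265 derangements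
  (`720 * 265` tests, early exit; the minimum is exactly 80).
* `cnt_agree`: `d ↦ μ⁻¹ * d` reduces to `μ = 1`; for each of the 15 sets `D` count (the count is 18).
  Alternative without computation: with `{x, y}` the complement of `D`, a `d` that fixes three
  elements of `D` is determined by `(d x, d y)`, and this pair is one of the 18 pairs of distinct
  elements which are not both in `D`.
-/

set_option autoImplicit false

namespace Pool.Agent.PKF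

/-- the 265 derangements of six elements, as tuples of values -/
def cntDer : List (ℕ × ℕ × ℕ × ℕ × ℕ × ℕ) :=
  [(1,0,3,2,5,4), (1,0,3,4,5,2), (1,0,3,5,2,4), (1,0,4,2,5,3), (1,0,4,5,2,3), (1,0,4,5,3,2),
   (1,0,5,2,3,4), (1,0,5,4,2,3), (1,0,5,4,3,2), (1,2,0,4,5,3), (1,2,0,5,3,4), (1,2,3,0,5,4),
   (1,2,3,4,5,0), (1,2,3,5,0,4), (1,2,4,0,5,3), (1,2,4,5,0,3), (1,2,4,5,3,0), (1,2,5,0,3,4),
   (1,2,5,4,0,3), (1,2,5,4,3,0), (1,3,0,2,5,4), (1,3,0,4,5,2), (1,3,0,5,2,4), (1,3,4,0,5,2),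
   (1,3,4,2,5,0), (1,3,4,5,0,2), (1,3,4,5,2,0), (1,3,5,0,2,4), (1,3,5,2,0,4), (1,3,5,4,0,2),
   (1,3,5,4,2,0), (1,4,0,2,5,3), (1,4,0,5,2,3), (1,4,0,5,3,2), (1,4,3,0,5,2), (1,4,3,2,5,0),
   (1,4,3,5,0,2), (1,4,3,5,2,0), (1,4,5,0,2,3), (1,4,5,0,3,2), (1,4,5,2,0,3), (1,4,5,2,3,0),
   (1,5,0,2,3,4), (1,5,0,4,2,3), (1,5,0,4,3,2), (1,5,3,0,2,4), (1,5,3,2,0,4), (1,5,3,4,0,2),
   (1,5,3,4,2,0), (1,5,4,0,2,3), (1,5,4,0,3,2), (1,5,4,2,0,3), (1,5,4,2,3,0), (2,0,1,4,5,3),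
   (2,0,1,5,3,4), (2,0,3,1,5,4), (2,0,3,4,5,1), (2,0,3,5,1,4), (2,0,4,1,5,3), (2,0,4,5,1,3),
   (2,0,4,5,3,1), (2,0,5,1,3,4), (2,0,5,4,1,3), (2,0,5,4,3,1), (2,3,0,1,5,4), (2,3,0,4,5,1),
   (2,3,0,5,1,4), (2,3,1,0,5,4), (2,3,1,4,5,0), (2,3,1,5,0,4), (2,3,4,0,5,1), (2,3,4,1,5,0),
   (2,3,4,5,0,1), (2,3,4,5,1,0), (2,3,5,0,1,4), (2,3,5,1,0,4), (2,3,5,4,0,1), (2,3,5,4,1,0),
   (2,4,0,1,5,3), (2,4,0,5,1,3), (2,4,0,5,3,1), (2,4,1,0,5,3), (2,4,1,5,0,3), (2,4,1,5,3,0),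
   (2,4,3,0,5,1), (2,4,3,1,5,0), (2,4,3,5,0,1), (2,4,3,5,1,0), (2,4,5,0,1,3), (2,4,5,0,3,1),
   (2,4,5,1,0,3), (2,4,5,1,3,0), (2,5,0,1,3,4), (2,5,0,4,1,3), (2,5,0,4,3,1), (2,5,1,0,3,4),
   (2,5,1,4,0,3), (2,5,1,4,3,0), (2,5,3,0,1,4), (2,5,3,1,0,4), (2,5,3,4,0,1), (2,5,3,4,1,0),
   (2,5,4,0,1,3), (2,5,4,0,3,1), (2,5,4,1,0,3), (2,5,4,1,3,0), (3,0,1,2,5,4), (3,0,1,4,5,2),
   (3,0,1,5,2,4), (3,0,4,1,5,2), (3,0,4,2,5,1), (3,0,4,5,1,2), (3,0,4,5,2,1), (3,0,5,1,2,4),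
   (3,0,5,2,1,4), (3,0,5,4,1,2), (3,0,5,4,2,1), (3,2,0,1,5,4), (3,2,0,4,5,1), (3,2,0,5,1,4),
   (3,2,1,0,5,4), (3,2,1,4,5,0), (3,2,1,5,0,4), (3,2,4,0,5,1), (3,2,4,1,5,0), (3,2,4,5,0,1),
   (3,2,4,5,1,0), (3,2,5,0,1,4), (3,2,5,1,0,4), (3,2,5,4,0,1), (3,2,5,4,1,0), (3,4,0,1,5,2),
   (3,4,0,2,5,1), (3,4,0,5,1,2), (3,4,0,5,2,1), (3,4,1,0,5,2), (3,4,1,2,5,0), (3,4,1,5,0,2),
   (3,4,1,5,2,0), (3,4,5,0,1,2), (3,4,5,0,2,1), (3,4,5,1,0,2), (3,4,5,1,2,0), (3,4,5,2,0,1),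
   (3,4,5,2,1,0), (3,5,0,1,2,4), (3,5,0,2,1,4), (3,5,0,4,1,2), (3,5,0,4,2,1), (3,5,1,0,2,4),
   (3,5,1,2,0,4), (3,5,1,4,0,2), (3,5,1,4,2,0), (3,5,4,0,1,2), (3,5,4,0,2,1), (3,5,4,1,0,2),
   (3,5,4,1,2,0), (3,5,4,2,0,1), (3,5,4,2,1,0), (4,0,1,2,5,3), (4,0,1,5,2,3), (4,0,1,5,3,2),
   (4,0,3,1,5,2), (4,0,3,2,5,1), (4,0,3,5,1,2), (4,0,3,5,2,1), (4,0,5,1,2,3), (4,0,5,1,3,2),
   (4,0,5,2,1,3), (4,0,5,2,3,1), (4,2,0,1,5,3), (4,2,0,5,1,3), (4,2,0,5,3,1), (4,2,1,0,5,3),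
   (4,2,1,5,0,3), (4,2,1,5,3,0), (4,2,3,0,5,1), (4,2,3,1,5,0), (4,2,3,5,0,1), (4,2,3,5,1,0),
   (4,2,5,0,1,3), (4,2,5,0,3,1), (4,2,5,1,0,3), (4,2,5,1,3,0), (4,3,0,1,5,2), (4,3,0,2,5,1),
   (4,3,0,5,1,2), (4,3,0,5,2,1), (4,3,1,0,5,2), (4,3,1,2,5,0), (4,3,1,5,0,2), (4,3,1,5,2,0),
   (4,3,5,0,1,2), (4,3,5,0,2,1), (4,3,5,1,0,2), (4,3,5,1,2,0), (4,3,5,2,0,1), (4,3,5,2,1,0),
   (4,5,0,1,2,3), (4,5,0,1,3,2), (4,5,0,2,1,3), (4,5,0,2,3,1), (4,5,1,0,2,3), (4,5,1,0,3,2),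
   (4,5,1,2,0,3), (4,5,1,2,3,0), (4,5,3,0,1,2), (4,5,3,0,2,1), (4,5,3,1,0,2), (4,5,3,1,2,0),
   (4,5,3,2,0,1), (4,5,3,2,1,0), (5,0,1,2,3,4), (5,0,1,4,2,3), (5,0,1,4,3,2), (5,0,3,1,2,4),
   (5,0,3,2,1,4), (5,0,3,4,1,2), (5,0,3,4,2,1), (5,0,4,1,2,3), (5,0,4,1,3,2), (5,0,4,2,1,3),
   (5,0,4,2,3,1), (5,2,0,1,3,4), (5,2,0,4,1,3), (5,2,0,4,3,1), (5,2,1,0,3,4), (5,2,1,4,0,3),
   (5,2,1,4,3,0), (5,2,3,0,1,4), (5,2,3,1,0,4), (5,2,3,4,0,1), (5,2,3,4,1,0), (5,2,4,0,1,3),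
   (5,2,4,0,3,1), (5,2,4,1,0,3), (5,2,4,1,3,0), (5,3,0,1,2,4), (5,3,0,2,1,4), (5,3,0,4,1,2),
   (5,3,0,4,2,1), (5,3,1,0,2,4), (5,3,1,2,0,4), (5,3,1,4,0,2), (5,3,1,4,2,0), (5,3,4,0,1,2),
   (5,3,4,0,2,1), (5,3,4,1,0,2), (5,3,4,1,2,0), (5,3,4,2,0,1), (5,3,4,2,1,0), (5,4,0,1,2,3),
   (5,4,0,1,3,2), (5,4,0,2,1,3), (5,4,0,2,3,1), (5,4,1,0,2,3), (5,4,1,0,3,2), (5,4,1,2,0,3),
   (5,4,1,2,3,0), (5,4,3,0,1,2), (5,4,3,0,2,1), (5,4,3,1,0,2), (5,4,3,1,2,0), (5,4,3,2,0,1),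
   (5,4,3,2,1,0)]

/-- the tuple `t` differs from `(a0, ..., a5)` in every place -/
def cntTst (a0 a1 a2 a3 a4 a5 : ℕ) (t : ℕ × ℕ × ℕ × ℕ × ℕ × ℕ) : Bool :=
  (!(Nat.beq t.1 a0)) && ((!(Nat.beq t.2.1 a1)) && ((!(Nat.beq t.2.2.1 a2)) &&
    ((!(Nat.beq t.2.2.2.1 a3)) && ((!(Nat.beq t.2.2.2.2.1 a4)) && (!(Nat.beq t.2.2.2.2.2 a5))))))

def cntSix : List ℕ := [0, 1, 2, 3, 4, 5]

def cntAll : Bool :=
  cntSix.all fun a0 => cntSix.all fun a1 => (Nat.beq a1 a0) ||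
    (cntSix.all fun a2 => ((Nat.beq a2 a0) || (Nat.beq a2 a1)) ||
      (cntSix.all fun a3 => ((Nat.beq a3 a0) || ((Nat.beq a3 a1) || (Nat.beq a3 a2))) ||
        (cntSix.all fun a4 => ((Nat.beq a4 a0) || ((Nat.beq a4 a1) || ((Nat.beq a4 a2) ||
            (Nat.beq a4 a3)))) ||
          (cntSix.all fun a5 => ((Nat.beq a5 a0) || ((Nat.beq a5 a1) || ((Nat.beq a5 a2) ||
              ((Nat.beq a5 a3) || (Nat.beq a5 a4))))) ||
            (Nat.ble 80 (cntDer.filter (cntTst a0 a1 a2 a3 a4 a5)).length)))))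

theorem cntAll_true : cntAll = true := by
  decide +kernel

def cntValid (t : ℕ × ℕ × ℕ × ℕ × ℕ × ℕ) : Bool :=
  (Nat.blt t.1 6 && (Nat.blt t.2.1 6 && (Nat.blt t.2.2.1 6 && (Nat.blt t.2.2.2.1 6 &&
    (Nat.blt t.2.2.2.2.1 6 && Nat.blt t.2.2.2.2.2 6))))) &&
  ((!(Nat.beq t.1 t.2.1) && (!(Nat.beq t.1 t.2.2.1) && (!(Nat.beq t.1 t.2.2.2.1) &&
    (!(Nat.beq t.1 t.2.2.2.2.1) && (!(Nat.beq t.1 t.2.2.2.2.2) &&
    (!(Nat.beq t.2.1 t.2.2.1) && (!(Nat.beq t.2.1 t.2.2.2.1) &&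
    (!(Nat.beq t.2.1 t.2.2.2.2.1) && (!(Nat.beq t.2.1 t.2.2.2.2.2) &&
    (!(Nat.beq t.2.2.1 t.2.2.2.1) && (!(Nat.beq t.2.2.1 t.2.2.2.2.1) &&
    (!(Nat.beq t.2.2.1 t.2.2.2.2.2) &&
    (!(Nat.beq t.2.2.2.1 t.2.2.2.2.1) && (!(Nat.beq t.2.2.2.1 t.2.2.2.2.2) &&
    (!(Nat.beq t.2.2.2.2.1 t.2.2.2.2.2)))))))))))))))) &&
  (!(Nat.beq t.1 0) && (!(Nat.beq t.2.1 1) && (!(Nat.beq t.2.2.1 2) && (!(Nat.beq t.2.2.2.1 3) &&
    (!(Nat.beq t.2.2.2.2.1 4) && !(Nat.beq t.2.2.2.2.2 5)))))))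

theorem cntDer_valid : cntDer.all cntValid = true := by
  decide +kernel

theorem cntDer_nodup : cntDer.Nodup := by
  decide +kernel

/-- the tuple of the values of a permutation -/
def cntTup (s : P6) : ℕ × ℕ × ℕ × ℕ × ℕ × ℕ :=
  (((s 0 : Fin 6) : ℕ), ((s 1 : Fin 6) : ℕ), ((s 2 : Fin 6) : ℕ), ((s 3 : Fin 6) : ℕ),
    ((s 4 : Fin 6) : ℕ), ((s 5 : Fin 6) : ℕ))

theorem cnt_nbeq {m n : ℕ} : Nat.beq m n = false ↔ m ≠ n := by
  constructor
  · intro h hmn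
    subst hmn
    rw [Nat.beq_refl] at h
    exact Bool.noConfusion h
  · intro h
    by_contra hc
    rw [Bool.not_eq_false] at hc
    exact h (Nat.eq_of_beq_eq_true hc)

theorem cntTup_exists (t : ℕ × ℕ × ℕ × ℕ × ℕ × ℕ) (ht : cntValid t = true) :
    ∃ s : P6, cntTup s = t ∧ ∀ i, s i ≠ i := by
  obtain ⟨x0, x1, x2, x3, x4, x5⟩ := t
  simp only [cntValid, Bool.and_eq_true, Bool.not_eq_true', cnt_nbeq, Nat.blt_eq] at ht
  obtain ⟨⟨h0, h1, h2, h3, h4, h5⟩, ⟨d1, d2, d3, d4, d5, d6, d7, d8, d9, d10, d11, d12, d13, d14, d15⟩,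
    f0, f1, f2, f3, f4, f5⟩ := ht
  let f : Fin 6 → Fin 6 := ![⟨x0, h0⟩, ⟨x1, h1⟩, ⟨x2, h2⟩, ⟨x3, h3⟩, ⟨x4, h4⟩, ⟨x5, h5⟩]
  have hf : Function.Injective f := by
    rw [← List.nodup_ofFn]
    simp [f, List.ofFn_succ, Fin.ext_iff]
    omega
  have hb : Function.Bijective f := Finite.injective_iff_bijective.1 hf
  refine ⟨Equiv.ofBijective f hb, ?_, ?_⟩
  · simp [cntTup, f]
  · intro i
    fin_cases i <;> simp [f, Fin.ext_iff] <;> omega

theorem cnt_one (q : P6) : 80 ≤ ((Finset.univ : Finset P6).filter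
    (fun s => ∀ i, s i ≠ i ∧ s i ≠ q i)).card := by
  classical
  set L := cntDer.filter (cntTst (q 0 : Fin 6) (q 1 : Fin 6) (q 2 : Fin 6) (q 3 : Fin 6)
    (q 4 : Fin 6) (q 5 : Fin 6)) with hL
  have hlen : 80 ≤ L.length := by
    have h := cntAll_true
    have hmem : ∀ i : Fin 6, ((q i : Fin 6) : ℕ) ∈ cntSix := by
      intro i
      have := (q i).isLt
      simp only [cntSix, List.mem_cons, List.not_mem_nil, or_false]
      omega
    have hne : ∀ i j : Fin 6, i ≠ j → Nat.beq ((q i : Fin 6) : ℕ) ((q j : Fin 6) : ℕ) = false := by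
      intro i j hij
      rw [cnt_nbeq]
      intro h
      exact hij (q.injective (Fin.ext h))
    have h0 := List.all_eq_true.1 h _ (hmem 0)
    have h1 := List.all_eq_true.1 h0 _ (hmem 1)
    rw [hne 1 0 (by decide), Bool.false_or] at h1
    have h2 := List.all_eq_true.1 h1 _ (hmem 2)
    rw [hne 2 0 (by decide), hne 2 1 (by decide), Bool.false_or, Bool.false_or] at h2
    have h3 := List.all_eq_true.1 h2 _ (hmem 3)
    rw [hne 3 0 (by decide), hne 3 1 (by decide), hne 3 2 (by decide), Bool.false_or,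
      Bool.false_or, Bool.false_or] at h3
    have h4 := List.all_eq_true.1 h3 _ (hmem 4)
    rw [hne 4 0 (by decide), hne 4 1 (by decide), hne 4 2 (by decide), hne 4 3 (by decide),
      Bool.false_or, Bool.false_or, Bool.false_or, Bool.false_or] at h4
    have h5 := List.all_eq_true.1 h4 _ (hmem 5)
    rw [hne 5 0 (by decide), hne 5 1 (by decide), hne 5 2 (by decide), hne 5 3 (by decide),
      hne 5 4 (by decide), Bool.false_or, Bool.false_or, Bool.false_or, Bool.false_or,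
      Bool.false_or] at h5
    exact Nat.le_of_ble_eq_true h5
  have hnd : L.Nodup := cntDer_nodup.filter _
  have hsub : L.toFinset ⊆ ((Finset.univ : Finset P6).filter
      (fun s => ∀ i, s i ≠ i ∧ s i ≠ q i)).image cntTup := by
    intro t ht
    rw [List.mem_toFinset, hL, List.mem_filter] at ht
    obtain ⟨s, hs, hder⟩ := cntTup_exists t (List.all_eq_true.1 cntDer_valid _ ht.1)
    rw [Finset.mem_image]
    refine ⟨s, Finset.mem_filter.2 ⟨Finset.mem_univ _, fun i => ⟨hder i, ?_⟩⟩, hs⟩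
    have h2 := ht.2
    rw [← hs] at h2
    simp only [cntTst, cntTup, Bool.and_eq_true, Bool.not_eq_true', cnt_nbeq] at h2
    obtain ⟨g0, g1, g2, g3, g4, g5⟩ := h2
    intro hi
    fin_cases i
    · exact g0 (congrArg Fin.val hi)
    · exact g1 (congrArg Fin.val hi)
    · exact g2 (congrArg Fin.val hi)
    · exact g3 (congrArg Fin.val hi)
    · exact g4 (congrArg Fin.val hi)
    · exact g5 (congrArg Fin.val hi)
  calc 80 ≤ L.length := hlen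
    _ = L.toFinset.card := (List.toFinset_card_of_nodup hnd).symm
    _ ≤ _ := Finset.card_le_card hsub
    _ ≤ _ := Finset.card_image_le

theorem cnt_avoid2 (q1 q2 : P6) :
    80 ≤ ((Finset.univ : Finset P6).filter
      (fun s => ∀ i, s i ≠ q1 i ∧ s i ≠ q2 i)).card := by
  refine (cnt_one (q1⁻¹ * q2)).trans ?_
  refine Finset.card_le_card_of_injOn (fun s => q1 * s) ?_ ?_
  · intro s hs
    have hs' := (Finset.mem_filter.1 (Finset.mem_coe.1 hs)).2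
    refine Finset.mem_coe.2 (Finset.mem_filter.2 ⟨Finset.mem_univ _, fun i => ⟨?_, ?_⟩⟩)
    · intro h
      exact (hs' i).1 (q1.injective h)
    · intro h
      refine (hs' i).2 ?_
      rw [Equiv.Perm.mul_apply, Equiv.Perm.eq_inv_iff_eq]
      exact h
  · intro s _ s' _ h
    exact mul_left_cancel h

theorem cnt_three {μ : P6} {D : Finset (Fin 6)} (hD : D.card = 4) {d : P6}
    (hd : 3 ≤ (D.filter (fun i => d i = μ i)).card) {i : Fin 6} (hi : i ∈ D) (hdi : d i ≠ μ i) :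
    ∀ j ∈ D, j ≠ i → d j = μ j := by
  have hsub : D.filter (fun i => d i = μ i) ⊆ D.erase i := by
    intro j hj
    rw [Finset.mem_filter] at hj
    rw [Finset.mem_erase]
    refine ⟨?_, hj.1⟩
    rintro rfl
    exact hdi hj.2
  have hcard : (D.erase i).card ≤ (D.filter (fun i => d i = μ i)).card := by
    rw [Finset.card_erase_of_mem hi, hD]
    exact hd
  have heq := Finset.eq_of_subset_of_card_le hsub hcard
  intro j hj hji
  have : j ∈ D.filter (fun i => d i = μ i) := by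
    rw [heq]
    exact Finset.mem_erase.2 ⟨hji, hj⟩
  exact (Finset.mem_filter.1 this).2

theorem cnt_inj_aux {μ : P6} {D : Finset (Fin 6)} (hD : D.card = 4) {d d' : P6}
    (hd : 3 ≤ (D.filter (fun i => d i = μ i)).card)
    (hd' : 3 ≤ (D.filter (fun i => d' i = μ i)).card)
    (hdd : ∀ j, j ∉ D → d j = d' j) {i : Fin 6} (hi : i ∈ D) (hdi : d i ≠ μ i) : d i = d' i := by
  have h1 := cnt_three hD hd hi hdi
  have hd'i : d' i ≠ μ i := by
    intro h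
    obtain ⟨j, hj⟩ := d.surjective (μ i)
    by_cases hjD : j ∈ D
    · by_cases hji : j = i
      · subst hji
        exact hdi hj
      · rw [h1 j hjD hji] at hj
        exact hji (μ.injective hj)
    · rw [hdd j hjD, ← h] at hj
      have := d'.injective hj
      subst this
      exact hjD hi
  have h2 := cnt_three hD hd' hi hd'i
  obtain ⟨j, hj⟩ := d'.surjective (d i)
  by_cases hji : j = i
  · subst hji
    exact hj.symm
  · exfalso
    have : d j = d' j := by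
      by_cases hjD : j ∈ D
      · rw [h1 j hjD hji, h2 j hjD hji]
      · exact hdd j hjD
    rw [← this] at hj
    exact hji (d.injective hj)

theorem cnt_inj {μ : P6} {D : Finset (Fin 6)} (hD : D.card = 4) {d d' : P6}
    (hd : 3 ≤ (D.filter (fun i => d i = μ i)).card)
    (hd' : 3 ≤ (D.filter (fun i => d' i = μ i)).card)
    (hdd : ∀ j, j ∉ D → d j = d' j) : d = d' := by
  refine Equiv.ext fun i => ?_
  by_cases hi : i ∈ D
  · by_cases hdi : d i = μ i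
    · by_cases hdi' : d' i = μ i
      · rw [hdi, hdi']
      · exact (cnt_inj_aux hD hd' hd (fun j hj => (hdd j hj).symm) hi hdi').symm
    · exact cnt_inj_aux hD hd hd' hdd hi hdi
  · exact hdd i hi

theorem cnt_pairs : ∀ D : Finset (Fin 6), D.card = 4 →
    ((Finset.univ : Finset (Fin 6 × Fin 6)).filter
      (fun p => p.1 ≠ p.2 ∧ ¬ (p.1 ∈ D ∧ p.2 ∈ D))).card = 18 := by
  decide +kernel

theorem cnt_agree (μ : P6) (D : Finset (Fin 6)) (hD : D.card = 4) :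
    ((Finset.univ : Finset P6).filter
      (fun d => 3 ≤ (D.filter (fun i => d i = μ i)).card)).card ≤ 18 := by
  have hc : (Dᶜ).card = 2 := by
    rw [Finset.card_compl, hD]
    rfl
  obtain ⟨x, y, hxy, hDc⟩ := Finset.card_eq_two.1 hc
  have hmem : ∀ j, j ∉ D ↔ j = x ∨ j = y := by
    intro j
    rw [← Finset.mem_compl, hDc, Finset.mem_insert, Finset.mem_singleton]
  have hx : x ∉ D := (hmem x).2 (Or.inl rfl)
  have hy : y ∉ D := (hmem y).2 (Or.inr rfl)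
  have hE : (D.image μ).card = 4 := by
    rw [Finset.card_image_of_injective _ μ.injective, hD]
  rw [← cnt_pairs (D.image μ) hE]
  refine Finset.card_le_card_of_injOn (fun d => (d x, d y)) ?_ ?_
  · intro d hd
    have hd' := (Finset.mem_filter.1 (Finset.mem_coe.1 hd)).2
    refine Finset.mem_coe.2 (Finset.mem_filter.2 ⟨Finset.mem_univ _, ?_, ?_⟩)
    · intro h
      exact hxy (d.injective h)
    · rintro ⟨h1, h2⟩
      obtain ⟨i, hi, hix⟩ := Finset.mem_image.1 h1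
      obtain ⟨j, hj, hjy⟩ := Finset.mem_image.1 h2
      have hij : j ≠ i := by
        rintro rfl
        exact hxy (d.injective (hix.symm.trans hjy))
      have hdi : d i ≠ μ i := by
        intro h
        have : i = x := d.injective (h.trans hix)
        subst this
        exact hx hi
      have := cnt_three hD hd' hi hdi j hj hij
      have hjy' : j = y := d.injective (this.trans hjy)
      subst hjy'
      exact hy hj
  · intro d hd d' hd' h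
    have h1 := (Finset.mem_filter.1 (Finset.mem_coe.1 hd)).2
    have h2 := (Finset.mem_filter.1 (Finset.mem_coe.1 hd')).2
    have h3 := Prod.mk.inj h
    refine cnt_inj hD h1 h2 fun j hj => ?_
    rcases (hmem j).1 hj with rfl | rfl
    · exact h3.1
    · exact h3.2

end Pool.Agent.PKF
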