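import Mathlib

/-!
PKF = MP_36eb6d_co, hand-in `MadFive`: mad(G) < 5 implies correspondence packing number at most 6
(Q1 for k = 5).  Paper proof: /team-store/pkf_proof.md.  Definitions used by all modules.
-/

set_option autoImplicit false

namespace Pool.Agent.PKF

/-- permutations of the six colours -/
abbrev P6 := Equiv.Perm (Fin 6)

/-- every row and every column of the relation `A` (a `6 x 6` board, rows `i`, columns `t`)
contains at least `r` cells of `A` -/
def Deg (r : ℕ) (A : Fin 6 → Fin 6 → Prop) : Prop :=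
  (∀ i, ∃ F : Finset (Fin 6), r ≤ F.card ∧ ∀ t ∈ F, A i t) ∧
  (∀ t, ∃ F : Finset (Fin 6), r ≤ F.card ∧ ∀ i ∈ F, A i t)

/-- no permutation is disjoint from all four of `a b c d` -/
def Bad4 (a b c d : P6) : Prop :=
  ¬ ∃ π : P6, ∀ i, π i ≠ a i ∧ π i ≠ b i ∧ π i ≠ c i ∧ π i ≠ d i

/-- rows `S` (three rows) and columns `T` (four columns) such that in each row of `S` the four
values of `a b c d` are pairwise distinct and fill `T` -/
def Cand (a b c d : P6) (S T : Finset (Fin 6)) : Prop :=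
  S.card = 3 ∧ T.card = 4 ∧
  ∀ i ∈ S, a i ∈ T ∧ b i ∈ T ∧ c i ∈ T ∧ d i ∈ T ∧
    a i ≠ b i ∧ a i ≠ c i ∧ a i ≠ d i ∧ b i ≠ c i ∧ b i ≠ d i ∧ c i ≠ d i

/-- the rows of `D` carry a block of `a b c` on the columns `μ(D)`, the value `μ i` being
the missing one -/
def Block (a b c μ : P6) (D : Finset (Fin 6)) : Prop :=
  ∀ i ∈ D, a i ∈ D.image μ ∧ b i ∈ D.image μ ∧ c i ∈ D.image μ ∧
    a i ≠ b i ∧ a i ≠ c i ∧ b i ≠ c i ∧ μ i ≠ a i ∧ μ i ≠ b i ∧ μ i ≠ c i

/-- the conclusion of Lemma M for `a b c`: all `d` that are bad with `a b c` agree in at least three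
rows of a fixed set `D` of four rows with a fixed permutation `μ` -/
def Concl (a b c : P6) : Prop :=
  ∃ (μ : P6) (D : Finset (Fin 6)), D.card = 4 ∧
    (∀ d, Bad4 a b c d → 3 ≤ (D.filter (fun i => d i = μ i)).card) ∧
    (Block a b c μ D ∨
      ∃ i1 ∈ D, ∃ i2 ∈ D, i1 ≠ i2 ∧ ∀ d, Bad4 a b c d → d i1 = μ i1 ∧ d i2 = μ i2)

/-- the degree of `v` inside `W` -/
def dg {V : Type} (G : SimpleGraph V) [DecidableRel G.Adj] (W : Finset V) (v : V) : ℕ :=
  (W.filter (fun u => G.Adj v u)).card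

/-- `c` packs the subgraph induced on `W`: `c v i` is the colour of `v` in the `i`-th colouring -/
def IsPack {V : Type} (G : SimpleGraph V) (σ : V → V → P6) (W : Finset V) (c : V → P6) : Prop :=
  ∀ u ∈ W, ∀ v ∈ W, G.Adj u v → ∀ i, c v i ≠ σ u v (c u i)

/-- the subgraph induced on `W` has a packing -/
def Packable {V : Type} (G : SimpleGraph V) (σ : V → V → P6) (W : Finset V) : Prop :=
  ∃ c : V → P6, IsPack G σ W c

end Pool.Agent.PKF
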