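import Pool.Agent.PKF.Defs

/-!
PKF-Disch (MP_36eb6d_co).  The discharging step.

Plan.  Let `V4` be the set of the `v ∈ W` of degree 4 (in `W`) and `U` the set of those of degree at
least 6.  A `v ∈ V4` has no neighbour of degree 4 (`h1`) and at most one of degree 5 (`h2`), so at
least three in `U`.  So `3 |V4| ≤ ` number of adjacent pairs `(v, u)`, `v ∈ V4`, `u ∈ U`,
`= ∑_{u ∈ U} n4(u)`, and `n4(u) ≤ 3 (d(u) - 5)`: for `d(u) = 6` by `h3`, for `d(u) = 7` by `h4`, for
`d(u) ≥ 8` as `n4(u) ≤ d(u) ≤ 3 (d(u) - 5)`.  So `|V4| ≤ ∑_{u ∈ U} (d(u) - 5)`, and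
`∑_{v ∈ W} d(v) = 5 |W| - |V4| + ∑_{u ∈ U} (d(u) - 5) ≥ 5 |W|`.
(Mathlib `Finset.sum_card_bipartiteAbove_eq_sum_card_bipartiteBelow` or `Finset.sum_comm`.)
-/

set_option autoImplicit false

namespace Pool.Agent.PKF

variable {V : Type} [DecidableEq V]

theorem disch (G : SimpleGraph V) [DecidableRel G.Adj] (W : Finset V)
    (h0 : ∀ v ∈ W, 4 ≤ dg G W v)
    (h1 : ∀ v ∈ W, dg G W v = 4 → ∀ u ∈ W, G.Adj v u → dg G W u ≠ 4)
    (h2 : ∀ v ∈ W, dg G W v = 4 → ∀ u1 ∈ W, ∀ u2 ∈ W, G.Adj v u1 → G.Adj v u2 →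
      dg G W u1 = 5 → dg G W u2 = 5 → u1 = u2)
    (h3 : ∀ u ∈ W, dg G W u = 6 →
      (W.filter (fun v => G.Adj u v ∧ dg G W v = 4)).card ≤ 3)
    (h4 : ∀ u ∈ W, dg G W u = 7 →
      (W.filter (fun v => G.Adj u v ∧ dg G W v = 4)).card ≤ 6) :
    5 * W.card ≤ ∑ v ∈ W, dg G W v := by
  classical
  set V4 := W.filter (fun v => dg G W v = 4) with hV4
  set U := W.filter (fun v => 6 ≤ dg G W v) with hU
  -- neighbours in `W`
  have hdg : ∀ v, dg G W v = (W.filter (fun u => G.Adj v u)).card := fun v => rfl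
  -- every vertex of degree 4 has at least three neighbours in `U`
  have key1 : ∀ v ∈ V4, 3 ≤ (U.filter (fun u => G.Adj v u)).card := by
    intro v hv
    rw [hV4, Finset.mem_filter] at hv
    obtain ⟨hvW, hv4⟩ := hv
    have hsplit : W.filter (fun u => G.Adj v u) ⊆
        (U.filter (fun u => G.Adj v u)) ∪ (W.filter (fun u => G.Adj v u ∧ dg G W u = 5)) := by
      intro u hu
      rw [Finset.mem_filter] at hu
      have h4u := h0 u hu.1
      have hne := h1 v hvW hv4 u hu.1 hu.2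
      rw [Finset.mem_union]
      rcases Nat.lt_or_ge (dg G W u) 6 with h6 | h6
      · right
        rw [Finset.mem_filter]
        exact ⟨hu.1, hu.2, by omega⟩
      · left
        rw [Finset.mem_filter, hU, Finset.mem_filter]
        exact ⟨⟨hu.1, h6⟩, hu.2⟩
    have hone : (W.filter (fun u => G.Adj v u ∧ dg G W u = 5)).card ≤ 1 := by
      rw [Finset.card_le_one]
      intro a ha b hb
      rw [Finset.mem_filter] at ha hb
      exact h2 v hvW hv4 a ha.1 b hb.1 ha.2.1 hb.2.1 ha.2.2 hb.2.2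
    have hc := Finset.card_le_card hsplit
    have hu := Finset.card_union_le (U.filter (fun u => G.Adj v u))
      (W.filter (fun u => G.Adj v u ∧ dg G W u = 5))
    have hd := hdg v
    omega
  have key2 : ∀ u ∈ U, (V4.filter (fun v => G.Adj v u)).card ≤ 3 * (dg G W u - 5) := by
    intro u hu
    rw [hU, Finset.mem_filter] at hu
    obtain ⟨huW, hu6⟩ := hu
    have he : V4.filter (fun v => G.Adj v u) = W.filter (fun v => G.Adj u v ∧ dg G W v = 4) := by
      ext v
      rw [hV4, Finset.mem_filter, Finset.mem_filter, Finset.mem_filter]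
      constructor
      · rintro ⟨⟨a, b⟩, c⟩
        exact ⟨a, c.symm, b⟩
      · rintro ⟨a, b, c⟩
        exact ⟨⟨a, c⟩, b.symm⟩
    rw [he]
    have hle : (W.filter (fun v => G.Adj u v ∧ dg G W v = 4)).card ≤ dg G W u := by
      rw [hdg]
      apply Finset.card_le_card
      intro v hv
      rw [Finset.mem_filter] at hv ⊢
      exact ⟨hv.1, hv.2.1⟩
    rcases Nat.lt_or_ge (dg G W u) 7 with h7 | h7
    · have := h3 u huW (by omega)
      omega
    · rcases Nat.lt_or_ge (dg G W u) 8 with h8 | h8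
      · have := h4 u huW (by omega)
        omega
      · omega
  have hdc : ∑ v ∈ V4, (U.filter (fun u => G.Adj v u)).card =
      ∑ u ∈ U, (V4.filter (fun v => G.Adj v u)).card := by
    simp only [Finset.card_filter]
    exact Finset.sum_comm
  have h3V : 3 * V4.card ≤ 3 * ∑ u ∈ U, (dg G W u - 5) := by
    calc 3 * V4.card = ∑ v ∈ V4, 3 := by rw [Finset.sum_const, smul_eq_mul, mul_comm]
      _ ≤ ∑ v ∈ V4, (U.filter (fun u => G.Adj v u)).card := Finset.sum_le_sum key1
      _ = ∑ u ∈ U, (V4.filter (fun v => G.Adj v u)).card := hdc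
      _ ≤ ∑ u ∈ U, 3 * (dg G W u - 5) := Finset.sum_le_sum key2
      _ = 3 * ∑ u ∈ U, (dg G W u - 5) := by rw [Finset.mul_sum]
  have hU' : ∑ u ∈ U, (dg G W u - 5) = ∑ v ∈ W, if 6 ≤ dg G W v then (dg G W v - 5) else 0 := by
    rw [hU, Finset.sum_filter]
  have hV' : V4.card = ∑ v ∈ W, if dg G W v = 4 then 1 else 0 := by
    rw [hV4, Finset.card_filter]
  have hpt : ∑ v ∈ W, (5 + if 6 ≤ dg G W v then (dg G W v - 5) else 0) ≤
      ∑ v ∈ W, (dg G W v + if dg G W v = 4 then 1 else 0) := by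
    apply Finset.sum_le_sum
    intro v hv
    have := h0 v hv
    split_ifs <;> omega
  rw [Finset.sum_add_distrib, Finset.sum_add_distrib, Finset.sum_const, smul_eq_mul, ← hU', ← hV']
    at hpt
  omega

end Pool.Agent.PKF
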