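import Pool.Agent.PKF.LemM

/-!
PKF-Ext (MP_36eb6d_co).  Extending a packing to one more vertex; vertices of degree at most 3 and
adjacent vertices of degree 4 are reducible.

Plan.
* `pack_update`: check the condition for the pairs `(v, u)`, `(u, v)` with `u ∈ W`; for `(v, u)` use
  `σ v u = (σ u v).symm`.
* `pack_small`: `W.erase v` has a packing `c`; the set `N` of the neighbours of `v` in `W` has at most
  three elements; `deg_compl N (fun u => σ u v * c u) 3` and `hall3'` give the permutation for
  `pack_update`.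
* `exists3`: (a helper) for a finset `N` with `|N| = 3` and `p : V → P6` there are `a b c` with
  `∀ u ∈ N, p u = a ∨ p u = b ∨ p u = c` (`Finset.card_eq_three`).  It is stated for `|N| ≤ 3`
  with `N` possibly empty.
* `pack_44`: `c` packs `W' = (W.erase u).erase v`.  Let `N` be the neighbours of `v` in `W'`: three, and
  `M` those of `u` in `W'`: three.  Let `a b c'` be the permutations `σ w v * c w`, `w ∈ N`.  `lemM` gives
  `μ, D`; let `i1 ≠ i2` in `D`.  `hall3` for the complement of the three permutations `σ w u * c w`,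
  `w ∈ M` (`deg_compl`), with the cells `(i1, (σ u v).symm (μ i1))`, `(i2, (σ u v).symm (μ i2))`, gives
  a permutation `x` for `u`.  `d = σ u v * x` has `d i1 ≠ μ i1`, `d i2 ≠ μ i2`, so it agrees with `μ` on at
  most 2 rows of `D`, so it is not bad: there is a permutation for `v`.  Use `pack_update` twice
  (first `u`, then `v`).
-/

set_option autoImplicit false

namespace Pool.Agent.PKF

variable {V : Type} [DecidableEq V]

theorem pack_update (G : SimpleGraph V) (σ : V → V → P6)
    (hσ : ∀ u v, G.Adj u v → σ v u = (σ u v).symm) (W : Finset V) (v : V) (hv : v ∉ W)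
    (c : V → P6) (hc : IsPack G σ W c) (π : P6)
    (hπ : ∀ u ∈ W, G.Adj u v → ∀ i, π i ≠ σ u v (c u i)) :
    IsPack G σ (insert v W) (Function.update c v π) := by
  intro x hx y hy hxy i
  by_cases h1 : x = v
  · subst h1
    have h2 : y ≠ x := fun h => G.loopless.irrefl x (h ▸ hxy)
    have hy' : y ∈ W := (Finset.mem_insert.1 hy).resolve_left h2
    rw [Function.update_self, Function.update_of_ne h2, hσ y x hxy.symm]
    intro h3
    apply hπ y hy' hxy.symm i
    rw [h3, Equiv.apply_symm_apply]
  · have hx' : x ∈ W := (Finset.mem_insert.1 hx).resolve_left h1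
    by_cases h2 : y = v
    · subst h2
      rw [Function.update_self, Function.update_of_ne h1]
      exact hπ x hx' hxy i
    · have hy' : y ∈ W := (Finset.mem_insert.1 hy).resolve_left h2
      rw [Function.update_of_ne h2, Function.update_of_ne h1]
      exact hc x hx' y hy' hxy i

theorem exists3 (N : Finset V) (hN : N.card ≤ 3) (p : V → P6) :
    ∃ a b c : P6, ∀ u ∈ N, p u = a ∨ p u = b ∨ p u = c := by
  have h : N.card = 0 ∨ N.card = 1 ∨ N.card = 2 ∨ N.card = 3 := by omega
  rcases h with h | h | h | h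
  · rw [Finset.card_eq_zero] at h
    subst h
    exact ⟨1, 1, 1, fun u hu => absurd hu (Finset.notMem_empty u)⟩
  · obtain ⟨x, rfl⟩ := Finset.card_eq_one.1 h
    refine ⟨p x, p x, p x, fun u hu => ?_⟩
    rw [Finset.mem_singleton] at hu
    exact Or.inl (by rw [hu])
  · obtain ⟨x, y, -, rfl⟩ := Finset.card_eq_two.1 h
    refine ⟨p x, p y, p y, fun u hu => ?_⟩
    rw [Finset.mem_insert, Finset.mem_singleton] at hu
    rcases hu with hu | hu
    · exact Or.inl (by rw [hu])
    · exact Or.inr (Or.inl (by rw [hu]))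
  · obtain ⟨x, y, z, -, -, -, rfl⟩ := Finset.card_eq_three.1 h
    refine ⟨p x, p y, p z, fun u hu => ?_⟩
    rw [Finset.mem_insert, Finset.mem_insert, Finset.mem_singleton] at hu
    rcases hu with hu | hu | hu
    · exact Or.inl (by rw [hu])
    · exact Or.inr (Or.inl (by rw [hu]))
    · exact Or.inr (Or.inr (by rw [hu]))

theorem pack_small (G : SimpleGraph V) [DecidableRel G.Adj] (σ : V → V → P6)
    (hσ : ∀ u v, G.Adj u v → σ v u = (σ u v).symm) (W : Finset V) (v : V) (hv : v ∈ W)
    (hd : dg G W v ≤ 3) (h : Packable G σ (W.erase v)) : Packable G σ W := by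
  obtain ⟨c, hc⟩ := h
  have hd' : (W.filter (fun u => G.Adj v u)).card ≤ 3 := hd
  obtain ⟨π, hπ⟩ := hall3' _ (deg_compl (W.filter (fun u => G.Adj v u)) (fun u => σ u v * c u) 3
    (by omega))
  have h2 := pack_update G σ hσ (W.erase v) v (Finset.notMem_erase v W) c hc π (by
    intro u hu huv i
    exact hπ i u (Finset.mem_filter.2 ⟨Finset.mem_of_mem_erase hu, huv.symm⟩))
  rw [Finset.insert_erase hv] at h2
  exact ⟨_, h2⟩

private theorem ext_three (G : SimpleGraph V) [DecidableRel G.Adj] (W : Finset V) (u v : V)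
    (hu : u ∈ W) (huv : G.Adj u v) (hdv : dg G W v = 4) (W' : Finset V)
    (hW : ∀ w, w ∈ W' ↔ w ∈ W ∧ w ≠ u ∧ w ≠ v) :
    (W'.filter (fun w => G.Adj v w)).card = 3 := by
  have h1 : (W.filter (fun w => G.Adj v w)) = insert u (W'.filter (fun w => G.Adj v w)) := by
    ext w
    rw [Finset.mem_insert, Finset.mem_filter, Finset.mem_filter, hW]
    constructor
    · rintro ⟨h2, h3⟩
      by_cases h4 : w = u
      · exact Or.inl h4
      · exact Or.inr ⟨⟨h2, h4, fun h5 => G.loopless.irrefl v (h5 ▸ h3)⟩, h3⟩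
    · rintro (h2 | ⟨h2, h3⟩)
      · subst h2
        exact ⟨hu, huv.symm⟩
      · exact ⟨h2.1, h3⟩
  have h2 : (W.filter (fun w => G.Adj v w)).card = 4 := hdv
  rw [h1, Finset.card_insert_of_notMem] at h2
  · omega
  · intro h3
    rw [Finset.mem_filter, hW] at h3
    exact h3.1.2.1 rfl

theorem pack_44 (G : SimpleGraph V) [DecidableRel G.Adj] (σ : V → V → P6)
    (hσ : ∀ u v, G.Adj u v → σ v u = (σ u v).symm) (W : Finset V) (u v : V) (hu : u ∈ W)
    (hv : v ∈ W) (huv : G.Adj u v) (hdu : dg G W u = 4) (hdv : dg G W v = 4)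
    (h : Packable G σ ((W.erase u).erase v)) : Packable G σ W := by
  obtain ⟨c, hc⟩ := h
  have hne : u ≠ v := huv.ne
  obtain ⟨W', hW'⟩ : ∃ W', W' = (W.erase u).erase v := ⟨_, rfl⟩
  rw [← hW'] at hc
  have hmem : ∀ w, w ∈ W' ↔ w ∈ W ∧ w ≠ u ∧ w ≠ v := by
    intro w
    rw [hW', Finset.mem_erase, Finset.mem_erase]
    tauto
  have hN := ext_three G W u v hu huv hdv W' hmem
  have hM := ext_three G W v u hv huv.symm hdu W' (by
    intro w
    rw [hmem]
    tauto)
  obtain ⟨a, b, c', habc⟩ := exists3 (W'.filter (fun w => G.Adj v w)) hN.le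
    (fun w => σ w v * c w)
  obtain ⟨μ, D, hD, hbad, -⟩ := lemM a b c'
  obtain ⟨i1, h1, i2, h2, h12⟩ : ∃ i1 ∈ D, ∃ i2 ∈ D, i1 ≠ i2 := by
    have := Finset.one_lt_card.1 (show 1 < D.card by omega)
    exact this
  obtain ⟨x, hx, hx1, hx2⟩ := hall3 _ (deg_compl (W'.filter (fun w => G.Adj u w))
    (fun w => σ w u * c w) 3 (by omega)) i1 i2 ((σ u v).symm (μ i1)) ((σ u v).symm (μ i2)) h12
    (fun he => h12 (μ.injective ((σ u v).symm.injective he)))
  have hd1 : σ u v (x i1) ≠ μ i1 := fun he => hx1 (by rw [← he, Equiv.symm_apply_apply])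
  have hd2 : σ u v (x i2) ≠ μ i2 := fun he => hx2 (by rw [← he, Equiv.symm_apply_apply])
  have hnb : ¬ Bad4 a b c' (σ u v * x) := by
    intro hb
    have h3 := hbad _ hb
    have h4 : D.filter (fun i => (σ u v * x) i = μ i) ⊆ (D.erase i1).erase i2 := by
      intro i hi
      rw [Finset.mem_filter] at hi
      rw [Finset.mem_erase, Finset.mem_erase]
      refine ⟨?_, ?_, hi.1⟩
      · rintro rfl
        exact hd2 hi.2
      · rintro rfl
        exact hd1 hi.2
    have h5 := Finset.card_le_card h4
    rw [Finset.card_erase_of_mem (Finset.mem_erase.2 ⟨h12.symm, h2⟩),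
      Finset.card_erase_of_mem h1] at h5
    omega
  obtain ⟨π, hπ⟩ := not_not.1 hnb
  have hu' : u ∉ W' := fun h3 => ((hmem u).1 h3).2.1 rfl
  have hv' : v ∉ insert u W' := by
    intro h3
    rcases Finset.mem_insert.1 h3 with h4 | h4
    · exact hne h4.symm
    · exact ((hmem v).1 h4).2.2 rfl
  have k1 := pack_update G σ hσ W' u hu' c hc x (by
    intro w hw hwu i
    exact hx i w (Finset.mem_filter.2 ⟨hw, hwu.symm⟩))
  have k2 := pack_update G σ hσ (insert u W') v hv' _ k1 π (by
    intro w hw hwv i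
    rcases Finset.mem_insert.1 hw with h4 | h4
    · subst h4
      rw [Function.update_self]
      exact (hπ i).2.2.2
    · have h5 : w ≠ u := ((hmem w).1 h4).2.1
      rw [Function.update_of_ne h5]
      have h6 := habc w (Finset.mem_filter.2 ⟨h4, hwv.symm⟩)
      have h7 : σ w v (c w i) = (σ w v * c w) i := rfl
      rw [h7]
      rcases h6 with h6 | h6 | h6
      · rw [show σ w v * c w = a from h6]
        exact (hπ i).1
      · rw [show σ w v * c w = b from h6]
        exact (hπ i).2.1
      · rw [show σ w v * c w = c' from h6]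
        exact (hπ i).2.2.1)
  have h8 : insert v (insert u W') = W := by
    ext w
    rw [Finset.mem_insert, Finset.mem_insert, hmem]
    constructor
    · rintro (h3 | h3 | h3)
      · rw [h3]
        exact hv
      · rw [h3]
        exact hu
      · exact h3.1
    · intro h3
      by_cases h4 : w = v
      · exact Or.inl h4
      · by_cases h5 : w = u
        · exact Or.inr (Or.inl h5)
        · exact Or.inr (Or.inr ⟨h3, h5, h4⟩)
  rw [h8] at k2
  exact ⟨_, k2⟩

end Pool.Agent.PKF
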