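import Pool.Agent.PKF.LemM
import Pool.Agent.PKF.C1

/-!
PKF-TwoStep (MP_36eb6d_co).  Recolouring two neighbours.

Plan.  Note `Bad4 a b x y ↔ Bad4 a b y x`.
* `step1`: if `lemM` for `(a, b, z)` gives the second alternative, then for every `A` with `Deg 2 A` and
  a perfect matching there is a perfect matching `w` of `A` with `¬ Bad4 a b z w`: `c1` with
  `D = {i1, i2, i3, i4}`: a bad `w` has `w i1 = μ i1`, `w i2 = μ i2` and agrees with `μ` in three rows
  of `D`.
* `lemM` for `(a, b, y)`.  Second alternative: `step1` gives `x'` with `¬ Bad4 a b x' y`.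
  First alternative, `Block a b y μ D`: let `D = {i1, i2, i3, i4}`; `c1` gives a perfect matching `x'` of
  `A1` which does not agree with `μ` on all of `D`.  If `¬ Bad4 a b x' y`: done.  Otherwise `x'`
  agrees with `μ` on exactly three rows of `D`, call this set `S`, and for the fourth row `w`,
  `x' w ∉ E := D.image μ` (as `x'` is injective and `x' = μ` on `S`, `μ w ≠ x' w`).
  We show that `lemM` for `(a, b, x')` gives the second alternative (then `step1` applied to `A2`
  gives `y'`).  Suppose `Block a b x' μ' D'`, `|D'| = 4`, `E' = D'.image μ'`.  Then `Cand a b x' y S E`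
  (rows of `S`: `a i, b i, y i, μ i = x' i` are distinct elements of `E`) and `Cand a b x' μ' S' E'`
  for any 3-subset `S'` of `D'`.  `cand_AA`: `E = E'`.  `a` maps `D` onto `E` and `D'` onto `E'`, so
  `D = D'`, so `x' w ∈ E' = E`: contradiction.
-/

set_option autoImplicit false

namespace Pool.Agent.PKF

private theorem ts_symm {a b x y : P6} (h : Bad4 a b x y) : Bad4 a b y x := by
  rintro ⟨π, hπ⟩
  exact h ⟨π, fun i => ⟨(hπ i).1, (hπ i).2.1, (hπ i).2.2.2, (hπ i).2.2.1⟩⟩

private theorem ts_two {D : Finset (Fin 6)} (hD : D.card = 4) {i1 i2 : Fin 6} (h1 : i1 ∈ D)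
    (h2 : i2 ∈ D) (h12 : i1 ≠ i2) :
    ∃ i3 i4 : Fin 6, i1 ≠ i3 ∧ i1 ≠ i4 ∧ i2 ≠ i3 ∧ i2 ≠ i4 ∧ i3 ≠ i4 ∧
      (∀ i, i ∈ D → i = i1 ∨ i = i2 ∨ i = i3 ∨ i = i4) ∧ i3 ∈ D ∧ i4 ∈ D := by
  have hc : ((D.erase i1).erase i2).card = 2 := by
    rw [Finset.card_erase_of_mem (Finset.mem_erase.2 ⟨h12.symm, h2⟩), Finset.card_erase_of_mem h1, hD]
  obtain ⟨i3, i4, h34, he⟩ := Finset.card_eq_two.1 hc
  have m3 : i3 ∈ (D.erase i1).erase i2 := by rw [he]; simp
  have m4 : i4 ∈ (D.erase i1).erase i2 := by rw [he]; simp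
  rw [Finset.mem_erase, Finset.mem_erase] at m3 m4
  refine ⟨i3, i4, m3.2.1.symm, m4.2.1.symm, m3.1.symm, m4.1.symm, h34, ?_, m3.2.2, m4.2.2⟩
  intro i hi
  by_cases e1 : i = i1
  · exact Or.inl e1
  by_cases e2 : i = i2
  · exact Or.inr (Or.inl e2)
  have : i ∈ (D.erase i1).erase i2 := Finset.mem_erase.2 ⟨e2, Finset.mem_erase.2 ⟨e1, hi⟩⟩
  rw [he, Finset.mem_insert, Finset.mem_singleton] at this
  exact Or.inr (Or.inr this)

private theorem ts_step1 (a b z μ : P6) (D : Finset (Fin 6)) (hD : D.card = 4)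
    (h3 : ∀ d, Bad4 a b z d → 3 ≤ (D.filter (fun i => d i = μ i)).card)
    (i1 i2 : Fin 6) (h1 : i1 ∈ D) (h2 : i2 ∈ D) (h12 : i1 ≠ i2)
    (hall : ∀ d, Bad4 a b z d → d i1 = μ i1 ∧ d i2 = μ i2)
    (A : Fin 6 → Fin 6 → Prop) (hA : Deg 2 A) (hPM : ∃ x : P6, ∀ i, A i (x i)) :
    ∃ w : P6, (∀ i, A i (w i)) ∧ ¬ Bad4 a b z w := by
  obtain ⟨i3, i4, h13, h14, h23, h24, h34, hcov, -, -⟩ := ts_two hD h1 h2 h12
  obtain ⟨π, hπ, hn⟩ := c1 A hA hPM μ i1 i2 i3 i4 h12 h13 h14 h23 h24 h34
  refine ⟨π, hπ, fun hb => hn ⟨(hall π hb).1, (hall π hb).2, ?_⟩⟩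
  by_contra hno
  have hsub : D.filter (fun i => π i = μ i) ⊆ {i1, i2} := by
    intro i hi
    rw [Finset.mem_filter] at hi
    rw [Finset.mem_insert, Finset.mem_singleton]
    rcases hcov i hi.1 with e | e | e | e
    · exact Or.inl e
    · exact Or.inr e
    · subst e
      exact (hno (Or.inl hi.2)).elim
    · subst e
      exact (hno (Or.inr hi.2)).elim
  have hle := (Finset.card_le_card hsub).trans Finset.card_le_two
  have := h3 π hb
  omega

private theorem ts_image {a μ : P6} {D : Finset (Fin 6)} (h : ∀ i ∈ D, a i ∈ D.image μ) :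
    D.image a = D.image μ := by
  apply Finset.eq_of_subset_of_card_le
  · intro y hy
    obtain ⟨i, hi, rfl⟩ := Finset.mem_image.1 hy
    exact h i hi
  · rw [Finset.card_image_of_injective _ μ.injective, Finset.card_image_of_injective _ a.injective]

theorem twoStep (a b y : P6) (A1 : Fin 6 → Fin 6 → Prop) (hA1 : Deg 2 A1)
    (h1 : ∃ x : P6, ∀ i, A1 i (x i)) :
    ∃ x' : P6, (∀ i, A1 i (x' i)) ∧
      (¬ Bad4 a b x' y ∨
        ∀ A2 : Fin 6 → Fin 6 → Prop, Deg 2 A2 → (∃ y0 : P6, ∀ i, A2 i (y0 i)) →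
          ∃ y' : P6, (∀ i, A2 i (y' i)) ∧ ¬ Bad4 a b x' y') := by
  obtain ⟨μ, D, hD, h3, hor⟩ := lemM a b y
  rcases hor with hB | ⟨i1, hi1, i2, hi2, h12, hall⟩
  · obtain ⟨i1, hi1, i2, hi2, h12⟩ : ∃ i1 ∈ D, ∃ i2 ∈ D, i1 ≠ i2 :=
      Finset.one_lt_card.1 (by omega)
    obtain ⟨i3, i4, h13, h14, h23, h24, h34, hcov, hi3, hi4⟩ := ts_two hD hi1 hi2 h12
    obtain ⟨x', hx', hn⟩ := c1 A1 hA1 h1 μ i1 i2 i3 i4 h12 h13 h14 h23 h24 h34
    refine ⟨x', hx', ?_⟩
    by_cases hb : Bad4 a b x' y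
    · right
      have hS3 := h3 x' (ts_symm hb)
      have hex : ∃ w ∈ D, x' w ≠ μ w := by
        by_contra hcon
        push Not at hcon
        exact hn ⟨hcon i1 hi1, hcon i2 hi2, Or.inl (hcon i3 hi3)⟩
      obtain ⟨w, hwD, hw⟩ := hex
      have hSsub : D.filter (fun i => x' i = μ i) ⊆ D.erase w := by
        intro i hi
        rw [Finset.mem_filter] at hi
        refine Finset.mem_erase.2 ⟨?_, hi.1⟩
        rintro rfl
        exact hw hi.2
      have hecard : (D.erase w).card = 3 := by rw [Finset.card_erase_of_mem hwD, hD]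
      have hSeq : D.filter (fun i => x' i = μ i) = D.erase w :=
        Finset.eq_of_subset_of_card_le hSsub (by omega)
      have hScard : (D.filter (fun i => x' i = μ i)).card = 3 := by rw [hSeq, hecard]
      have hwE : x' w ∉ D.image μ := by
        intro hm
        obtain ⟨s, hs, hse⟩ := Finset.mem_image.1 hm
        by_cases hsw : s = w
        · subst hsw
          exact hw hse.symm
        · have hsS : s ∈ D.filter (fun i => x' i = μ i) := by
            rw [hSeq]
            exact Finset.mem_erase.2 ⟨hsw, hs⟩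
          have h5 := (Finset.mem_filter.1 hsS).2
          exact hsw (x'.injective (h5.trans hse))
      have hcand : Cand a b x' y (D.filter (fun i => x' i = μ i)) (D.image μ) := by
        refine ⟨hScard, ?_, ?_⟩
        · rw [Finset.card_image_of_injective _ μ.injective, hD]
        · intro i hi
          rw [Finset.mem_filter] at hi
          obtain ⟨k1, k2, k3, k4, k5, k6, k7, k8, k9⟩ := hB i hi.1
          refine ⟨k1, k2, ?_, k3, k4, ?_, k5, ?_, k6, ?_⟩
          · rw [hi.2]
            exact Finset.mem_image_of_mem _ hi.1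
          · rw [hi.2]
            exact k7.symm
          · rw [hi.2]
            exact k8.symm
          · rw [hi.2]
            exact k9
      obtain ⟨μ', D', hD', h3', hor'⟩ := lemM a b x'
      rcases hor' with hB' | ⟨j1, hj1, j2, hj2, hj12, hall'⟩
      · exfalso
        obtain ⟨S', hS', hS'c⟩ := Finset.exists_subset_card_eq (s := D') (n := 3) (by omega)
        have hcand' : Cand a b x' μ' S' (D'.image μ') := by
          refine ⟨hS'c, ?_, ?_⟩
          · rw [Finset.card_image_of_injective _ μ'.injective, hD']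
          · intro i hi
            obtain ⟨k1, k2, k3, k4, k5, k6, k7, k8, k9⟩ := hB' i (hS' hi)
            exact ⟨k1, k2, k3, Finset.mem_image_of_mem _ (hS' hi), k4, k5, k7.symm, k6, k8.symm,
              k9.symm⟩
        have hE : D.image μ = D'.image μ' := cand_AA hcand hcand'
        have e1 : D.image a = D.image μ := ts_image fun i hi => (hB i hi).1
        have e2 : D'.image a = D'.image μ' := ts_image fun i hi => (hB' i hi).1
        have e3 : D = D' := by
          apply Finset.image_injective a.injective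
          rw [e1, e2, hE]
        refine hwE ?_
        rw [hE]
        exact (hB' w (e3 ▸ hwD)).2.2.1
      · intro A2 hA2 hy0
        exact ts_step1 a b x' μ' D' hD' h3' j1 j2 hj1 hj2 hj12 hall' A2 hA2 hy0
    · exact Or.inl hb
  · obtain ⟨w, hw, hwb⟩ := ts_step1 a b y μ D hD h3 i1 i2 hi1 hi2 h12 hall A1 hA1 h1
    exact ⟨w, hw, Or.inl fun hb => hwb (ts_symm hb)⟩

end Pool.Agent.PKF
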