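import Pool.Agent.PKF.Ext
import Pool.Agent.PKF.TwoStep

/-!
PKF-Ext2 (MP_36eb6d_co).  A vertex `v` of degree 4 with two neighbours of degree 5 is reducible.

Plan.  Let `c` pack `W' = W.erase v`.  The neighbours of `v` in `W` are `u1, u2` and two more, `w1, w2`
(`Finset.card_eq_two` for the neighbours without `u1, u2`).  Let `a = σ w1 v * c w1`,
`b = σ w2 v * c w2`, `y = σ u2 v * c u2`.  Let `N1` be the set of the neighbours of `u1` in `W'` (four
elements) and `A1 i t := ∀ w ∈ N1, t ≠ (σ u1 v * (σ w u1 * c w)) i`: `deg_compl` gives `Deg 2 A1`; the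
permutation `σ u1 v * c u1` is a perfect matching of `A1`.  `twoStep` gives `x'`.  Let
`c1 = Function.update c u1 ((σ u1 v)⁻¹ * x')`; it packs `W'` (`pack_update` for `W'.erase u1`; the
restriction of a packing to a subset is a packing).  If `¬ Bad4 a b x' y`, colour `v` by
`pack_update` (`σ u1 v * c1 u1 = x'`; `c1` is `c` at the other neighbours).  Otherwise use the second
alternative for `A2 i t := ∀ w ∈ N2, t ≠ (σ u2 v * (σ w u2 * c1 w)) i`, `N2` the neighbours of `u2` in `W'`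
(four elements), with the perfect matching `y`: it gives `y'`; recolour `u2` by
`(σ u2 v)⁻¹ * y'` and colour `v`.
-/

set_option autoImplicit false

namespace Pool.Agent.PKF

variable {V : Type} [DecidableEq V]

private theorem Ext2_recol (G : SimpleGraph V) [DecidableRel G.Adj] (σ : V → V → P6)
    (hσ : ∀ u v, G.Adj u v → σ v u = (σ u v).symm) (W : Finset V) (u : V) (hu : u ∈ W) (s : P6)
    (c : V → P6) (hc : IsPack G σ W c) (hcard : (W.filter (fun w => G.Adj u w)).card ≤ 4) :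
    ∃ A : Fin 6 → Fin 6 → Prop, Deg 2 A ∧ (∃ x : P6, ∀ i, A i (x i)) ∧
      ∀ x' : P6, (∀ i, A i (x' i)) → IsPack G σ W (Function.update c u (s⁻¹ * x')) := by
  refine ⟨fun i t => ∀ w ∈ W.filter (fun w => G.Adj u w), t ≠ (s * (σ w u * c w)) i,
    deg_compl (W.filter (fun w => G.Adj u w)) (fun w => s * (σ w u * c w)) 2 (by omega),
    ⟨s * c u, fun i w hw he => ?_⟩, fun x' hx' => ?_⟩
  · rw [Finset.mem_filter] at hw
    have h1 := hc w hw.1 u hu hw.2.symm i
    rw [Equiv.Perm.mul_apply, Equiv.Perm.mul_apply, Equiv.Perm.mul_apply] at he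
    exact h1 (s.injective he)
  · have hW : insert u (W.erase u) = W := Finset.insert_erase hu
    have hc' : IsPack G σ (W.erase u) c := fun a ha b hb =>
      hc a (Finset.mem_of_mem_erase ha) b (Finset.mem_of_mem_erase hb)
    have h2 := pack_update G σ hσ (W.erase u) u (Finset.notMem_erase u W) c hc' (s⁻¹ * x') ?_
    · rwa [hW] at h2
    · intro w hw hwu i he
      have h3 := hx' i w (Finset.mem_filter.2 ⟨Finset.mem_of_mem_erase hw, hwu.symm⟩)
      apply h3
      rw [Equiv.Perm.mul_apply] at he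
      rw [Equiv.Perm.mul_apply, Equiv.Perm.mul_apply, ← he]
      exact (Equiv.apply_symm_apply s (x' i)).symm

private theorem Ext2_fin (G : SimpleGraph V) (σ : V → V → P6)
    (hσ : ∀ u v, G.Adj u v → σ v u = (σ u v).symm) (W : Finset V) (v : V) (hv : v ∈ W)
    (c : V → P6) (hc : IsPack G σ (W.erase v) c) (u1 u2 w1 w2 : V)
    (hN : ∀ z ∈ W, G.Adj v z → z = u1 ∨ z = u2 ∨ z = w1 ∨ z = w2)
    (h : ¬ Bad4 (σ w1 v * c w1) (σ w2 v * c w2) (σ u1 v * c u1) (σ u2 v * c u2)) :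
    Packable G σ W := by
  unfold Bad4 at h
  rw [not_not] at h
  obtain ⟨π, hπ⟩ := h
  have h1 := pack_update G σ hσ (W.erase v) v (Finset.notMem_erase v W) c hc π ?_
  · rw [Finset.insert_erase hv] at h1
    exact ⟨_, h1⟩
  · intro z hz hzv i
    obtain ⟨k1, k2, k3, k4⟩ := hπ i
    rcases hN z (Finset.mem_of_mem_erase hz) hzv.symm with rfl | rfl | rfl | rfl
    · exact k3
    · exact k4
    · exact k1
    · exact k2

private theorem Ext2_card (G : SimpleGraph V) [DecidableRel G.Adj] (W : Finset V) (v u : V)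
    (hv : v ∈ W) (h : G.Adj v u) (hd : dg G W u = 5) :
    ((W.erase v).filter (fun w => G.Adj u w)).card ≤ 4 := by
  have h1 : (W.erase v).filter (fun w => G.Adj u w) = (W.filter (fun w => G.Adj u w)).erase v := by
    ext w
    simp only [Finset.mem_filter, Finset.mem_erase]
    tauto
  have h2 : (W.filter (fun w => G.Adj u w)).card = 5 := hd
  rw [h1, Finset.card_erase_of_mem (Finset.mem_filter.2 ⟨hv, h.symm⟩), h2]

theorem pack_455 (G : SimpleGraph V) [DecidableRel G.Adj] (σ : V → V → P6)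
    (hσ : ∀ u v, G.Adj u v → σ v u = (σ u v).symm) (W : Finset V) (v u1 u2 : V) (hv : v ∈ W)
    (hu1 : u1 ∈ W) (hu2 : u2 ∈ W) (h12 : u1 ≠ u2) (hvu1 : G.Adj v u1) (hvu2 : G.Adj v u2)
    (hdv : dg G W v = 4) (hd1 : dg G W u1 = 5) (hd2 : dg G W u2 = 5)
    (h : Packable G σ (W.erase v)) : Packable G σ W := by
  obtain ⟨c, hc⟩ := h
  have hu1' : u1 ∈ W.erase v := Finset.mem_erase.2 ⟨hvu1.ne', hu1⟩
  have hu2' : u2 ∈ W.erase v := Finset.mem_erase.2 ⟨hvu2.ne', hu2⟩
  -- the neighbours of `v`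
  obtain ⟨w1, w2, hw11, hw12, hw21, hw22, hN⟩ : ∃ w1 w2 : V, w1 ≠ u1 ∧ w1 ≠ u2 ∧ w2 ≠ u1 ∧ w2 ≠ u2 ∧
      ∀ z ∈ W, G.Adj v z → z = u1 ∨ z = u2 ∨ z = w1 ∨ z = w2 := by
    have e1 : u1 ∈ W.filter (fun u => G.Adj v u) := Finset.mem_filter.2 ⟨hu1, hvu1⟩
    have e2 : u2 ∈ (W.filter (fun u => G.Adj v u)).erase u1 :=
      Finset.mem_erase.2 ⟨h12.symm, Finset.mem_filter.2 ⟨hu2, hvu2⟩⟩
    have e4 : (W.filter (fun u => G.Adj v u)).card = 4 := hdv
    have e3 : (((W.filter (fun u => G.Adj v u)).erase u1).erase u2).card = 2 := by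
      rw [Finset.card_erase_of_mem e2, Finset.card_erase_of_mem e1, e4]
    obtain ⟨w1, w2, _, he⟩ := Finset.card_eq_two.1 e3
    have m1 : w1 ∈ ((W.filter (fun u => G.Adj v u)).erase u1).erase u2 := by
      rw [he]; exact Finset.mem_insert_self _ _
    have m2 : w2 ∈ ((W.filter (fun u => G.Adj v u)).erase u1).erase u2 := by
      rw [he]; exact Finset.mem_insert_of_mem (Finset.mem_singleton_self _)
    rw [Finset.mem_erase, Finset.mem_erase] at m1 m2
    refine ⟨w1, w2, m1.2.1, m1.1, m2.2.1, m2.1, fun z hz hvz => ?_⟩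
    by_cases z1 : z = u1
    · exact Or.inl z1
    by_cases z2 : z = u2
    · exact Or.inr (Or.inl z2)
    have m3 : z ∈ ((W.filter (fun u => G.Adj v u)).erase u1).erase u2 :=
      Finset.mem_erase.2 ⟨z2, Finset.mem_erase.2 ⟨z1, Finset.mem_filter.2 ⟨hz, hvz⟩⟩⟩
    rw [he, Finset.mem_insert, Finset.mem_singleton] at m3
    exact Or.inr (Or.inr m3)
  -- recolour `u1`
  obtain ⟨A1, hA1, hx, hup⟩ := Ext2_recol G σ hσ (W.erase v) u1 hu1' (σ u1 v) c hc
    (Ext2_card G W v u1 hv hvu1 hd1)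
  obtain ⟨x', hx', halt⟩ := twoStep (σ w1 v * c w1) (σ w2 v * c w2) (σ u2 v * c u2) A1 hA1 hx
  have hc1 := hup x' hx'
  set c1 : V → P6 := Function.update c u1 ((σ u1 v)⁻¹ * x') with hc1d
  have f1 : σ u1 v * c1 u1 = x' := by
    rw [hc1d, Function.update_self, mul_inv_cancel_left]
  have f2 : c1 u2 = c u2 := by rw [hc1d, Function.update_of_ne h12.symm]
  have f3 : c1 w1 = c w1 := by rw [hc1d, Function.update_of_ne hw11]
  have f4 : c1 w2 = c w2 := by rw [hc1d, Function.update_of_ne hw21]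
  rcases halt with hb | hb
  · refine Ext2_fin G σ hσ W v hv c1 hc1 u1 u2 w1 w2 hN ?_
    rw [f1, f2, f3, f4]
    exact hb
  · obtain ⟨A2, hA2, hy, hup2⟩ := Ext2_recol G σ hσ (W.erase v) u2 hu2' (σ u2 v) c1 hc1
      (Ext2_card G W v u2 hv hvu2 hd2)
    obtain ⟨y', hy', hnb⟩ := hb A2 hA2 hy
    refine Ext2_fin G σ hσ W v hv _ (hup2 y' hy') u1 u2 w1 w2 hN ?_
    rw [Function.update_self, Function.update_of_ne h12, Function.update_of_ne hw12,
      Function.update_of_ne hw22, f1, f3, f4, mul_inv_cancel_left]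
    exact hnb

end Pool.Agent.PKF
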