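import Pool.Agent.PKF.Cand

/-!
PKF-LemMIII (MP_36eb6d_co).  Lemma M, part (III): the candidates of `a b c` have one set `S` of rows, and
those of the inverses have none (`lemM_IIIa`) or one set `T'` (`lemM_IIIb`).  In the second case
`S ⊆ S'`, and the permutation `μ` agrees with `dA` on `S` and takes the row `w` of `S'` outside `S` to the
element `t` of `T'` with `e t = w`, if there is one.
-/

set_option autoImplicit false

namespace Pool.Agent.PKF

private theorem m3_ia (a : P6) (i : Fin 6) : a⁻¹ (a i) = i := a.symm_apply_apply i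

private theorem m3_ai (a : P6) (i : Fin 6) : a (a⁻¹ i) = i := a.apply_symm_apply i

private theorem m3_row {a b c dA d : P6} {S T S1 T1 : Finset (Fin 6)} (h : Cand a b c dA S T)
    (h1 : Cand a b c d S1 T1) (hS : S1 = S) : ∀ i ∈ S, d i = dA i := by
  have hT : T = T1 := cand_AA h h1
  subst hS
  subst hT
  intro i hi
  obtain ⟨-, -, hc⟩ := h1
  obtain ⟨-, -, -, hd, -, -, h3, -, h5, h6⟩ := hc i hi
  exact cand_unique h hi hd (Ne.symm h3) (Ne.symm h5) (Ne.symm h6)

theorem lemM_IIIa {a b c dA : P6} {S T : Finset (Fin 6)} (h : Cand a b c dA S T)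
    (huA : ∀ (d : P6) (S1 T1 : Finset (Fin 6)), Cand a b c d S1 T1 → S1 = S)
    (hC : ∀ (d : P6) (S1 T1 : Finset (Fin 6)), ¬ Cand a⁻¹ b⁻¹ c⁻¹ d S1 T1) : Concl a b c := by
  classical
  have hS3 : S.card = 3 := h.1
  have hkey : ∀ d, Bad4 a b c d → ∀ i ∈ S, d i = dA i := by
    intro d hd
    rcases bad_cases a b c d hd with ⟨S1, T1, h1⟩ | ⟨S1, T1, h1⟩
    · exact m3_row h h1 (huA d S1 T1 h1)
    · exact absurd h1 (hC _ S1 T1)
  obtain ⟨w, hw⟩ : ∃ w, w ∉ S := by
    by_contra hn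
    have h1 : S = Finset.univ := by
      refine Finset.eq_univ_of_forall fun x => ?_
      by_contra hx
      exact hn ⟨x, hx⟩
    rw [h1, Finset.card_univ, Fintype.card_fin] at hS3
    omega
  obtain ⟨i1, hi1, i2, hi2, hne⟩ := Finset.one_lt_card.1 (show 1 < S.card by omega)
  refine ⟨dA, insert w S, ?_, ?_, Or.inr ⟨i1, Finset.mem_insert_of_mem hi1, i2,
    Finset.mem_insert_of_mem hi2, hne, fun d hd => ⟨hkey d hd i1 hi1, hkey d hd i2 hi2⟩⟩⟩
  · rw [Finset.card_insert_of_notMem hw, hS3]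
  · intro d hd
    have h1 : S ⊆ (insert w S).filter (fun i => d i = dA i) := by
      intro i hi
      exact Finset.mem_filter.2 ⟨Finset.mem_insert_of_mem hi, hkey d hd i hi⟩
    have h2 := Finset.card_le_card h1
    omega

theorem lemM_IIIb {a b c dA e : P6} {S T T' S' : Finset (Fin 6)} (h : Cand a b c dA S T)
    (h' : Cand a⁻¹ b⁻¹ c⁻¹ e T' S')
    (huA : ∀ (d : P6) (S1 T1 : Finset (Fin 6)), Cand a b c d S1 T1 → S1 = S)
    (huC : ∀ (d : P6) (T1 S1 : Finset (Fin 6)), Cand a⁻¹ b⁻¹ c⁻¹ d T1 S1 → T1 = T') :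
    Concl a b c := by
  classical
  have hTT : T' ⊆ T := cand_AC h h'
  have hSS : S ⊆ S' := by
    have h1 : Cand (a⁻¹)⁻¹ (b⁻¹)⁻¹ (c⁻¹)⁻¹ dA S T := by
      rw [inv_inv, inv_inv, inv_inv]
      exact h
    exact cand_AC h' h1
  have hS3 : S.card = 3 := h.1
  have hT3 : T'.card = 3 := h'.1
  have hS4 : S'.card = 4 := h'.2.1
  obtain ⟨w, hw⟩ : ∃ w, S' \ S = {w} := by
    have h1 : (S' \ S).card = 1 := by
      rw [Finset.card_sdiff_of_subset hSS]
      omega
    exact Finset.card_eq_one.1 h1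
  have hwS' : w ∈ S' ∧ w ∉ S := by
    have h1 : w ∈ S' \ S := by rw [hw]; exact Finset.mem_singleton_self w
    exact Finset.mem_sdiff.1 h1
  have hsplit : ∀ i ∈ S', i ∈ S ∨ i = w := by
    intro i hi
    by_cases hiS : i ∈ S
    · exact Or.inl hiS
    · right
      have h1 : i ∈ S' \ S := Finset.mem_sdiff.2 ⟨hi, hiS⟩
      rw [hw] at h1
      exact Finset.mem_singleton.1 h1
  have hcT := h'.2.2
  have hcS := h.2.2
  have heS : ∀ t ∈ T', e t ∈ S → dA (e t) = t := by
    intro t ht het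
    obtain ⟨-, -, -, -, -, -, h3, -, h5, h6⟩ := hcT t ht
    refine (cand_unique h het (hTT ht) ?_ ?_ ?_).symm
    · intro hx
      exact h3 (by rw [hx, m3_ia, ← hx])
    · intro hx
      exact h5 (by rw [hx, m3_ia, ← hx])
    · intro hx
      exact h6 (by rw [hx, m3_ia, ← hx])
  have hw0 : ∀ t ∈ T', e t = w → ∀ i ∈ S, dA i ≠ t := by
    intro t ht het i hi hx
    obtain ⟨ha, hb, hc, -, h1, h2, h3, h4, h5, h6⟩ := hcT t ht
    have ha' : a⁻¹ t ∈ S := (hsplit _ ha).resolve_right (fun hy => h3 (hy.trans het.symm))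
    have hb' : b⁻¹ t ∈ S := (hsplit _ hb).resolve_right (fun hy => h5 (hy.trans het.symm))
    have hc' : c⁻¹ t ∈ S := (hsplit _ hc).resolve_right (fun hy => h6 (hy.trans het.symm))
    have hsub : ({a⁻¹ t, b⁻¹ t, c⁻¹ t} : Finset (Fin 6)) ⊆ S := by
      intro x hx
      simp only [Finset.mem_insert, Finset.mem_singleton] at hx
      rcases hx with hx | hx | hx
      · rw [hx]; exact ha'
      · rw [hx]; exact hb'
      · rw [hx]; exact hc'
    have hcard : ({a⁻¹ t, b⁻¹ t, c⁻¹ t} : Finset (Fin 6)).card = 3 := by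
      rw [Finset.card_insert_of_notMem, Finset.card_insert_of_notMem, Finset.card_singleton]
      · simp only [Finset.mem_singleton]
        exact h4
      · simp only [Finset.mem_insert, Finset.mem_singleton]
        rintro (hy | hy)
        · exact h1 hy
        · exact h2 hy
    have heq : ({a⁻¹ t, b⁻¹ t, c⁻¹ t} : Finset (Fin 6)) = S :=
      Finset.eq_of_subset_of_card_le hsub (by omega)
    have hi' : i ∈ ({a⁻¹ t, b⁻¹ t, c⁻¹ t} : Finset (Fin 6)) := by rw [heq]; exact hi
    obtain ⟨-, -, -, -, -, -, k3, -, k5, k6⟩ := hcS i hi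
    simp only [Finset.mem_insert, Finset.mem_singleton] at hi'
    rcases hi' with hy | hy | hy
    · exact k3 (by rw [hx, hy, m3_ai])
    · exact k5 (by rw [hx, hy, m3_ai])
    · exact k6 (by rw [hx, hy, m3_ai])
  obtain ⟨μ, hμS, hμw⟩ : ∃ μ : P6, (∀ i ∈ S, μ i = dA i) ∧ (∀ t ∈ T', e t = w → μ w = t) := by
    by_cases hex : ∃ t ∈ T', e t = w
    · obtain ⟨t0, ht0, het0⟩ := hex
      refine ⟨dA.trans (Equiv.swap (dA w) t0), ?_, ?_⟩
      · intro i hi
        rw [Equiv.trans_apply]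
        refine Equiv.swap_apply_of_ne_of_ne ?_ (hw0 t0 ht0 het0 i hi)
        intro hx
        have h1 : i = w := dA.injective hx
        exact hwS'.2 (h1 ▸ hi)
      · intro t _ het
        have h1 : t = t0 := e.injective (het.trans het0.symm)
        rw [Equiv.trans_apply, Equiv.swap_apply_left, h1]
    · exact ⟨dA, fun _ _ => rfl, fun t ht het => absurd ⟨t, ht, het⟩ hex⟩
  have hμe : ∀ t ∈ T', μ (e t) = t := by
    intro t ht
    obtain ⟨-, -, -, he, -⟩ := hcT t ht
    rcases hsplit _ he with hx | hx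
    · rw [hμS _ hx]
      exact heS t ht hx
    · rw [hx]
      exact hμw t ht hx
  have hkey : ∀ d, Bad4 a b c d → (∀ i ∈ S, d i = μ i) ∨ (∀ t ∈ T', d (e t) = μ (e t)) := by
    intro d hd
    rcases bad_cases a b c d hd with ⟨S1, T1, h1⟩ | ⟨T1, S1, h1⟩
    · left
      intro i hi
      rw [hμS i hi]
      exact m3_row h h1 (huA d S1 T1 h1) i hi
    · right
      intro t ht
      have h2 : d⁻¹ t = e t := m3_row h' h1 (huC _ T1 S1 h1) t ht
      rw [hμe t ht, ← h2, m3_ai]
  have heinj : Function.Injective e := e.injective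
  have hmem : ∀ t ∈ T', e t ∈ S' := fun t ht => (hcT t ht).2.2.2.1
  refine ⟨μ, S', hS4, ?_, Or.inr ?_⟩
  · intro d hd
    rcases hkey d hd with h1 | h1
    · have h2 : S ⊆ S'.filter (fun i => d i = μ i) := by
        intro i hi
        exact Finset.mem_filter.2 ⟨hSS hi, h1 i hi⟩
      have h3 := Finset.card_le_card h2
      omega
    · have h2 : T'.image e ⊆ S'.filter (fun i => d i = μ i) := by
        intro i hi
        obtain ⟨t, ht, rfl⟩ := Finset.mem_image.1 hi
        exact Finset.mem_filter.2 ⟨hmem t ht, h1 t ht⟩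
      have h3 := Finset.card_le_card h2
      rw [Finset.card_image_of_injective _ heinj] at h3
      omega
  · have h1 : (T'.filter (fun t => e t = w)).card ≤ 1 := by
      refine Finset.card_le_one.2 fun x hx y hy => ?_
      exact heinj ((Finset.mem_filter.1 hx).2.trans (Finset.mem_filter.1 hy).2.symm)
    have h2 := Finset.card_filter_add_card_filter_not (s := T') (fun t => e t = w)
    have h3 : 1 < (T'.filter (fun t => ¬ e t = w)).card := by omega
    obtain ⟨t1, ht1, t2, ht2, hne⟩ := Finset.one_lt_card.1 h3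
    have hmS : ∀ t ∈ T'.filter (fun t => ¬ e t = w), t ∈ T' ∧ e t ∈ S := by
      intro t ht
      obtain ⟨hta, htb⟩ := Finset.mem_filter.1 ht
      exact ⟨hta, (hsplit _ (hmem t hta)).resolve_right htb⟩
    obtain ⟨k1, k2⟩ := hmS t1 ht1
    obtain ⟨k3, k4⟩ := hmS t2 ht2
    refine ⟨e t1, hmem t1 k1, e t2, hmem t2 k3, fun hx => hne (heinj hx), ?_⟩
    intro d hd
    rcases hkey d hd with h4 | h4
    · exact ⟨h4 _ k2, h4 _ k4⟩
    · exact ⟨h4 _ k1, h4 _ k3⟩

end Pool.Agent.PKF
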