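import Pool.Agent.PKF.LemMI
import Pool.Agent.PKF.LemMIII

/-!
PKF-LemM (MP_36eb6d_co).  Lemma M: all `d` that are bad with `a b c` agree in at least three rows
of a fixed set `D` of four rows with a fixed permutation `μ`.

Plan.
* `concl_inv`: from `μ', D'` for the inverses take `μ = μ'⁻¹`, `D = D'.image μ'`.
  `Bad4 a b c d` implies `Bad4 a⁻¹ b⁻¹ c⁻¹ d⁻¹` (replace `π` by `π⁻¹`).  `d⁻¹` agrees with `μ'` in the row `t`
  iff `d` agrees with `μ` in the row `μ' t`.  `Block`: `i ∈ D` is `μ' t` with `t ∈ D'`; `D.image μ = D'`;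
  `a⁻¹` maps `D'` into `D`, hence onto `D`, so `a i ∈ D'`; the inequalities: `a i = b i = s` with
  `s ∈ D'` would give `a⁻¹ s = b⁻¹ s`.
* `lemM`: if two candidates of `a b c` have different first sets: `lemM_I`.  If two candidates of
  `a⁻¹ b⁻¹ c⁻¹` have different first sets: `lemM_I` for the inverses and `concl_inv`.  Otherwise, if
  `a b c` has a candidate: `lemM_IIIa` or `lemM_IIIb`.  Otherwise, if the inverses have a candidate:
  `lemM_IIIa` for them (`inv_inv`) and `concl_inv`.  Otherwise no `d` is bad (`bad_cases`): take `μ = 1`,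
  `D = {0, 1, 2, 3}`, second alternative with `i1 = 0`, `i2 = 1`.
-/

set_option autoImplicit false

namespace Pool.Agent.PKF

private theorem LemM_ai (x : P6) (i : Fin 6) : x (x⁻¹ i) = i := Equiv.apply_symm_apply x i

private theorem LemM_ia (x : P6) (i : Fin 6) : x⁻¹ (x i) = i := Equiv.symm_apply_apply x i

private theorem LemM_bad {a b c d : P6} (h : Bad4 a b c d) : Bad4 a⁻¹ b⁻¹ c⁻¹ d⁻¹ := by
  rintro ⟨π, hπ⟩
  refine h ⟨π⁻¹, fun i => ?_⟩
  have key : ∀ x : P6, (∀ j, π j ≠ x⁻¹ j) → π⁻¹ i ≠ x i := by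
    intro x hx hi
    refine hx (π⁻¹ i) ?_
    rw [LemM_ai, hi, LemM_ia]
  exact ⟨key a fun j => (hπ j).1, key b fun j => (hπ j).2.1, key c fun j => (hπ j).2.2.1,
    key d fun j => (hπ j).2.2.2⟩

private theorem LemM_eq {d μ' : P6} {t : Fin 6} (h : d⁻¹ t = μ' t) : d (μ' t) = μ'⁻¹ (μ' t) := by
  rw [← h, LemM_ai, h, LemM_ia]

theorem concl_inv {a b c : P6} (h : Concl a⁻¹ b⁻¹ c⁻¹) : Concl a b c := by
  obtain ⟨μ', D', hD', h3, hor⟩ := h
  have hDcard : (D'.image μ').card = 4 := by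
    rw [Finset.card_image_of_injective _ μ'.injective, hD']
  have himg : (D'.image μ').image (μ'⁻¹ : P6) = D' := by
    rw [Finset.image_image]
    have h1 : ((μ'⁻¹ : P6) ∘ μ' : Fin 6 → Fin 6) = id := by
      funext t
      exact LemM_ia μ' t
    rw [h1, Finset.image_id]
  refine ⟨μ'⁻¹, D'.image μ', hDcard, ?_, ?_⟩
  · intro d hd
    refine (h3 d⁻¹ (LemM_bad hd)).trans (Finset.card_le_card_of_injOn μ' ?_ μ'.injective.injOn)
    intro t ht
    rw [Finset.mem_coe, Finset.mem_filter] at ht ⊢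
    exact ⟨Finset.mem_image_of_mem _ ht.1, LemM_eq ht.2⟩
  · rcases hor with hB | ⟨i1, hi1, i2, hi2, hne, hall⟩
    · left
      have key : ∀ x : P6, (∀ t ∈ D', x⁻¹ t ∈ D'.image μ') → ∀ i ∈ D'.image μ', x i ∈ D' := by
        intro x hx i hi
        have h1 : D'.image (x⁻¹ : P6) = D'.image μ' := by
          apply Finset.eq_of_subset_of_card_le
          · intro y hy
            obtain ⟨t, ht, rfl⟩ := Finset.mem_image.1 hy
            exact hx t ht
          · rw [Finset.card_image_of_injective _ μ'.injective,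
              Finset.card_image_of_injective _ (x⁻¹ : P6).injective]
        rw [← h1] at hi
        obtain ⟨s, hs, rfl⟩ := Finset.mem_image.1 hi
        rw [LemM_ai]
        exact hs
      have ka := key a fun t ht => (hB t ht).1
      have kb := key b fun t ht => (hB t ht).2.1
      have kc := key c fun t ht => (hB t ht).2.2.1
      have kne : ∀ x y : P6, (∀ t ∈ D', x⁻¹ t ≠ y⁻¹ t) → ∀ i, x i ∈ D' → x i ≠ y i := by
        intro x y hxy i hi hc
        refine hxy (x i) hi ?_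
        rw [LemM_ia, hc, LemM_ia]
      have kmu : ∀ x : P6, (∀ t ∈ D', μ' t ≠ x⁻¹ t) → ∀ i ∈ D'.image μ', (μ'⁻¹ : P6) i ≠ x i := by
        intro x hx i hi hc
        obtain ⟨t, ht, rfl⟩ := Finset.mem_image.1 hi
        refine hx t ht ?_
        rw [LemM_ia] at hc
        conv_rhs => rw [hc]
        rw [LemM_ia]
      intro i hi
      rw [himg]
      exact ⟨ka i hi, kb i hi, kc i hi,
        kne a b (fun t ht => (hB t ht).2.2.2.1) i (ka i hi),
        kne a c (fun t ht => (hB t ht).2.2.2.2.1) i (ka i hi),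
        kne b c (fun t ht => (hB t ht).2.2.2.2.2.1) i (kb i hi),
        kmu a (fun t ht => (hB t ht).2.2.2.2.2.2.1) i hi,
        kmu b (fun t ht => (hB t ht).2.2.2.2.2.2.2.1) i hi,
        kmu c (fun t ht => (hB t ht).2.2.2.2.2.2.2.2) i hi⟩
    · right
      refine ⟨μ' i1, Finset.mem_image_of_mem _ hi1, μ' i2, Finset.mem_image_of_mem _ hi2,
        fun h => hne (μ'.injective h), fun d hd => ?_⟩
      have h1 := hall d⁻¹ (LemM_bad hd)
      exact ⟨LemM_eq h1.1, LemM_eq h1.2⟩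

theorem lemM (a b c : P6) :
    ∃ (μ : P6) (D : Finset (Fin 6)), D.card = 4 ∧
      (∀ d, Bad4 a b c d → 3 ≤ (D.filter (fun i => d i = μ i)).card) ∧
      (Block a b c μ D ∨
        ∃ i1 ∈ D, ∃ i2 ∈ D, i1 ≠ i2 ∧ ∀ d, Bad4 a b c d → d i1 = μ i1 ∧ d i2 = μ i2) := by
  show Concl a b c
  by_cases h1 : ∃ d1 d2 S1 S2 T1 T2, Cand a b c d1 S1 T1 ∧ Cand a b c d2 S2 T2 ∧ S1 ≠ S2
  · obtain ⟨d1, d2, S1, S2, T1, T2, hc1, hc2, hS⟩ := h1
    exact lemM_I hc1 hc2 hS
  by_cases h2 : ∃ d1 d2 S1 S2 T1 T2, Cand a⁻¹ b⁻¹ c⁻¹ d1 S1 T1 ∧ Cand a⁻¹ b⁻¹ c⁻¹ d2 S2 T2 ∧ S1 ≠ S2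
  · obtain ⟨d1, d2, S1, S2, T1, T2, hc1, hc2, hS⟩ := h2
    exact concl_inv (lemM_I hc1 hc2 hS)
  by_cases hA : ∃ dA S T, Cand a b c dA S T
  · obtain ⟨dA, S, T, hcA⟩ := hA
    have huA : ∀ (d : P6) (S1 T1 : Finset (Fin 6)), Cand a b c d S1 T1 → S1 = S := by
      intro d S1 T1 hc
      by_contra hne
      exact h1 ⟨d, dA, S1, S, T1, T, hc, hcA, hne⟩
    by_cases hC : ∃ e T' S', Cand a⁻¹ b⁻¹ c⁻¹ e T' S'
    · obtain ⟨e, T', S', hcC⟩ := hC
      refine lemM_IIIb hcA hcC huA ?_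
      intro d T1 S1 hc
      by_contra hne
      exact h2 ⟨d, e, T1, T', S1, S', hc, hcC, hne⟩
    · exact lemM_IIIa hcA huA fun d S1 T1 hc => hC ⟨d, S1, T1, hc⟩
  · by_cases hC : ∃ e T' S', Cand a⁻¹ b⁻¹ c⁻¹ e T' S'
    · obtain ⟨e, T', S', hcC⟩ := hC
      refine concl_inv (lemM_IIIa hcC ?_ ?_)
      · intro d T1 S1 hc
        by_contra hne
        exact h2 ⟨d, e, T1, T', S1, S', hc, hcC, hne⟩
      · intro d S1 T1 hc
        rw [inv_inv, inv_inv, inv_inv] at hc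
        exact hA ⟨d, S1, T1, hc⟩
    · have hno : ∀ d, ¬ Bad4 a b c d := by
        intro d hd
        rcases bad_cases a b c d hd with ⟨S, T, h⟩ | ⟨S, T, h⟩
        · exact hA ⟨d, S, T, h⟩
        · exact hC ⟨d⁻¹, S, T, h⟩
      refine ⟨1, {0, 1, 2, 3}, by decide, fun d hd => (hno d hd).elim, Or.inr ⟨0, by decide, 1, by decide,
        by decide, fun d hd => (hno d hd).elim⟩⟩

end Pool.Agent.PKF
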