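import Pool.Agent.PKF.Cand

/-!
PKF-LemMI (MP_36eb6d_co).  Lemma M, part (I): there are two candidates of `a b c` with different sets
of rows; then there is a block.

Plan.  `T1 = T2 = T` (`cand_AA`).  `D = S1 ∪ S2` has at least 4 elements and `a` maps it into `T`, so
`|D| = 4`, `|S1 ∩ S2| = 2`, and each of `a, b, c` maps `D` onto `T`.  Let `f i = d1 i` on `S1` and
`f w = d2 w` for the `w` in `S2 \ S1`.  `f` is injective on `D`: `d1 = d2` on `S1 ∩ S2` (`cand_unique`);
for `v ∈ S1 \ S2` and `t = d1 v ∈ T` the three distinct rows `a⁻¹ t, b⁻¹ t, c⁻¹ t` are in `D` and are not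
`v`, so `w` is among them, so `t ∈ {a w, b w, c w}`, so `t ≠ d2 w`.  Let `μ` extend `f` (`extendPerm`);
then `D.image μ = T` and `Block a b c μ D`.  Let `d` be bad and use `bad_cases`.
If `Cand a b c d S T'`: `T' = T`, `S ⊆ D` (as `a` maps `S` into `T` and `D` onto `T`), and `d = μ` on `S` by
`cand_unique` (for `S1` or `S2`).
If `Cand a⁻¹ b⁻¹ c⁻¹ d⁻¹ T' S'`: by `cand_AC` `T' ⊆ T`, and by `cand_AC` for the inverses (`inv_inv`)
`S1 ⊆ S'`, `S2 ⊆ S'`, so `S' = D`.  For `t ∈ T'`, `i = d⁻¹ t ∈ D` and `d i = t ∈ T` is different from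
`a i, b i, c i`, so `d i = μ i` (`cand_unique` for `S1` or `S2`); the three rows `d⁻¹ t`, `t ∈ T'`, are
distinct.
-/

set_option autoImplicit false

namespace Pool.Agent.PKF

private theorem inv_app (g : P6) (i : Fin 6) : g⁻¹ (g i) = i := Equiv.symm_apply_apply g i

private theorem app_inv (g : P6) (i : Fin 6) : g (g⁻¹ i) = i := Equiv.apply_symm_apply g i

private theorem onto_T {D T : Finset (Fin 6)} (g : P6) (hD : D.card = 4) (hT : T.card = 4)
    (h : ∀ i ∈ D, g i ∈ T) : D.image g = T := by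
  refine Finset.eq_of_subset_of_card_le ?_ ?_
  · intro t ht
    obtain ⟨i, hi, rfl⟩ := Finset.mem_image.1 ht
    exact h i hi
  · rw [Finset.card_image_of_injective _ g.injective, hD, hT]

private theorem back {D T : Finset (Fin 6)} (g : P6) (h : D.image g = T) {t : Fin 6} (ht : t ∈ T) :
    g⁻¹ t ∈ D := by
  rw [← h] at ht
  obtain ⟨i, hi, rfl⟩ := Finset.mem_image.1 ht
  rwa [inv_app]

theorem lemM_I {a b c d1 d2 : P6} {S1 S2 T1 T2 : Finset (Fin 6)} (h1 : Cand a b c d1 S1 T1)
    (h2 : Cand a b c d2 S2 T2) (hS : S1 ≠ S2) : Concl a b c := by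
  classical
  have hTT : T1 = T2 := cand_AA h1 h2
  subst hTT
  have hS1 : S1.card = 3 := h1.1
  have hS2 : S2.card = 3 := h2.1
  have hT : T1.card = 4 := h1.2.1
  have p1 := h1.2.2
  have p2 := h2.2.2
  -- the four rows
  have hDge : 4 ≤ (S1 ∪ S2).card := by
    by_contra hc
    have h3 : (S1 ∪ S2).card ≤ S1.card := by omega
    have h4 : S1 = S1 ∪ S2 := Finset.eq_of_subset_of_card_le Finset.subset_union_left h3
    have h5 : (S1 ∪ S2).card ≤ S2.card := by omega
    have h6 : S2 = S1 ∪ S2 := Finset.eq_of_subset_of_card_le Finset.subset_union_right h5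
    exact hS (h4.trans h6.symm)
  obtain ⟨D, hDdef⟩ : ∃ D, D = S1 ∪ S2 := ⟨_, rfl⟩
  rw [← hDdef] at hDge
  have mD : ∀ i, i ∈ D ↔ i ∈ S1 ∨ i ∈ S2 := fun i => by rw [hDdef, Finset.mem_union]
  have rows : ∀ i ∈ D, a i ∈ T1 ∧ b i ∈ T1 ∧ c i ∈ T1 ∧ a i ≠ b i ∧ a i ≠ c i ∧ b i ≠ c i := by
    intro i hi
    rcases (mD i).1 hi with h | h
    · obtain ⟨x1, x2, x3, x4, x5, x6, x7, x8, x9, x10⟩ := p1 i h
      exact ⟨x1, x2, x3, x5, x6, x8⟩
    · obtain ⟨x1, x2, x3, x4, x5, x6, x7, x8, x9, x10⟩ := p2 i h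
      exact ⟨x1, x2, x3, x5, x6, x8⟩
  have hDle : D.card ≤ 4 := by
    have h3 : (D.image a).card ≤ T1.card := by
      refine Finset.card_le_card ?_
      intro t ht
      obtain ⟨i, hi, rfl⟩ := Finset.mem_image.1 ht
      exact (rows i hi).1
    rw [Finset.card_image_of_injective _ a.injective] at h3
    omega
  have hD : D.card = 4 := le_antisymm hDle hDge
  have ia := onto_T a hD hT (fun i hi => (rows i hi).1)
  have ib := onto_T b hD hT (fun i hi => (rows i hi).2.1)
  have ic := onto_T c hD hT (fun i hi => (rows i hi).2.2.1)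
  -- the missing value
  obtain ⟨f, hfdef⟩ : ∃ f : Fin 6 → Fin 6, f = fun i => if i ∈ S1 then d1 i else d2 i := ⟨_, rfl⟩
  have f1 : ∀ i, i ∈ S1 → f i = d1 i := fun i hi => by rw [hfdef]; exact if_pos hi
  have f2 : ∀ i, i ∉ S1 → f i = d2 i := fun i hi => by rw [hfdef]; exact if_neg hi
  have hfv : ∀ i ∈ D, f i ∈ T1 ∧ f i ≠ a i ∧ f i ≠ b i ∧ f i ≠ c i := by
    intro i hi
    by_cases h : i ∈ S1
    · rw [f1 i h]
      obtain ⟨x1, x2, x3, x4, x5, x6, x7, x8, x9, x10⟩ := p1 i h
      exact ⟨x4, x7.symm, x9.symm, x10.symm⟩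
    · rw [f2 i h]
      have h' : i ∈ S2 := ((mD i).1 hi).resolve_left h
      obtain ⟨x1, x2, x3, x4, x5, x6, x7, x8, x9, x10⟩ := p2 i h'
      exact ⟨x4, x7.symm, x9.symm, x10.symm⟩
  have uniq : ∀ i ∈ D, ∀ x ∈ T1, x ≠ a i → x ≠ b i → x ≠ c i → x = f i := by
    intro i hi x hx xa xb xc
    by_cases h : i ∈ S1
    · rw [f1 i h]
      exact cand_unique h1 h hx xa xb xc
    · rw [f2 i h]
      exact cand_unique h2 (((mD i).1 hi).resolve_left h) hx xa xb xc
  have finj : ∀ i ∈ D, ∀ j ∈ D, f i = f j → i = j := by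
    intro i hi j hj hij
    by_contra hne
    obtain ⟨t, htdef⟩ : ∃ t, t = f i := ⟨_, rfl⟩
    obtain ⟨ht, ta, tb, tc⟩ := hfv i hi
    obtain ⟨-, ta', tb', tc'⟩ := hfv j hj
    rw [← hij, ← htdef] at ta' tb' tc'
    rw [← htdef] at ht ta tb tc
    have ra := back a ia ht
    have rb := back b ib ht
    have rc := back c ic ht
    have nab : a⁻¹ t ≠ b⁻¹ t := by
      intro h
      refine (rows _ ra).2.2.2.1 ?_
      rw [app_inv, h, app_inv]
    have nac : a⁻¹ t ≠ c⁻¹ t := by
      intro h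
      refine (rows _ ra).2.2.2.2.1 ?_
      rw [app_inv, h, app_inv]
    have nbc : b⁻¹ t ≠ c⁻¹ t := by
      intro h
      refine (rows _ rb).2.2.2.2.2 ?_
      rw [app_inv, h, app_inv]
    have key : ∀ (g : P6) (l : Fin 6), t ≠ g l → l ≠ g⁻¹ t := by
      intro g l h h'
      apply h
      rw [h', app_inv]
    have hsub : ({i, j, a⁻¹ t, b⁻¹ t, c⁻¹ t} : Finset (Fin 6)) ⊆ D := by
      intro l hl
      simp only [Finset.mem_insert, Finset.mem_singleton] at hl
      rcases hl with rfl | rfl | rfl | rfl | rfl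
      · exact hi
      · exact hj
      · exact ra
      · exact rb
      · exact rc
    have hcard : ({i, j, a⁻¹ t, b⁻¹ t, c⁻¹ t} : Finset (Fin 6)).card = 5 := by
      rw [Finset.card_insert_of_notMem, Finset.card_insert_of_notMem, Finset.card_insert_of_notMem,
        Finset.card_insert_of_notMem, Finset.card_singleton]
      · simpa using nbc
      · simp only [Finset.mem_insert, Finset.mem_singleton]
        rintro (h | h)
        · exact nab h
        · exact nac h
      · simp only [Finset.mem_insert, Finset.mem_singleton]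
        rintro (h | h | h)
        · exact key a j ta' h
        · exact key b j tb' h
        · exact key c j tc' h
      · simp only [Finset.mem_insert, Finset.mem_singleton]
        rintro (h | h | h | h)
        · exact hne h
        · exact key a i ta h
        · exact key b i tb h
        · exact key c i tc h
    have := Finset.card_le_card hsub
    omega
  obtain ⟨μ, hμ⟩ := extendPerm D f finj
  have iμ : D.image μ = T1 := onto_T μ hD hT (fun i hi => by rw [hμ i hi]; exact (hfv i hi).1)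
  refine ⟨μ, D, hD, ?_, Or.inl ?_⟩
  · intro d hd
    rcases bad_cases a b c d hd with ⟨S, T', h3⟩ | ⟨T', S', h3⟩
    · have e1 : T1 = T' := cand_AA h1 h3
      subst e1
      have hsub : S ⊆ D.filter (fun i => d i = μ i) := by
        intro i hi
        obtain ⟨x1, x2, x3, x4, x5, x6, x7, x8, x9, x10⟩ := h3.2.2 i hi
        have hiD : i ∈ D := by
          have := back a ia x1
          rwa [inv_app] at this
        rw [Finset.mem_filter]
        refine ⟨hiD, ?_⟩
        rw [hμ i hiD]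
        exact uniq i hiD _ x4 x7.symm x9.symm x10.symm
      have := Finset.card_le_card hsub
      rw [h3.1] at this
      exact this
    · have hT' : T' ⊆ T1 := cand_AC h1 h3
      have c1 : Cand a⁻¹⁻¹ b⁻¹⁻¹ c⁻¹⁻¹ d1 S1 T1 := by
        rw [inv_inv, inv_inv, inv_inv]; exact h1
      have c2 : Cand a⁻¹⁻¹ b⁻¹⁻¹ c⁻¹⁻¹ d2 S2 T1 := by
        rw [inv_inv, inv_inv, inv_inv]; exact h2
      have s1 : S1 ⊆ S' := cand_AC h3 c1
      have s2 : S2 ⊆ S' := cand_AC h3 c2
      have hDS : D = S' := by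
        refine Finset.eq_of_subset_of_card_le ?_ ?_
        · rw [hDdef]
          exact Finset.union_subset s1 s2
        · rw [hD, h3.2.1]
      have hsub : T'.image (d⁻¹ : P6) ⊆ D.filter (fun i => d i = μ i) := by
        intro i hi
        obtain ⟨t, ht, rfl⟩ := Finset.mem_image.1 hi
        obtain ⟨x1, x2, x3, x4, x5, x6, x7, x8, x9, x10⟩ := h3.2.2 t ht
        have hiD : d⁻¹ t ∈ D := by rw [hDS]; exact x4
        have key : ∀ g : P6, g⁻¹ t ≠ d⁻¹ t → d (d⁻¹ t) ≠ g (d⁻¹ t) := by
          intro g hg h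
          apply hg
          rw [app_inv] at h
          have h5 : g⁻¹ t = g⁻¹ (g (d⁻¹ t)) := by rw [← h]
          rw [inv_app] at h5
          exact h5
        rw [Finset.mem_filter]
        refine ⟨hiD, ?_⟩
        rw [hμ _ hiD]
        refine uniq _ hiD _ ?_ (key a x7) (key b x9) (key c x10)
        rw [app_inv]
        exact hT' ht
      have := Finset.card_le_card hsub
      rw [Finset.card_image_of_injective _ (d⁻¹ : P6).injective, h3.1] at this
      exact this
  · intro i hi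
    obtain ⟨r1, r2, r3, r4, r5, r6⟩ := rows i hi
    obtain ⟨-, m1, m2, m3⟩ := hfv i hi
    rw [iμ, hμ i hi]
    exact ⟨r1, r2, r3, r4, r5, r6, m1, m2, m3⟩

end Pool.Agent.PKF
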