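import Pool.Agent.PKF.Ext
import Pool.Agent.PKF.Cnt

/-!
PKF-Star (MP_36eb6d_co).  A vertex `u` with many neighbours of degree 4 is reducible.

Plan.  Let `c` pack `W' = (W.erase u) \ N`.  For `v ∈ N` the neighbours of `v` in `W` are `u` and three
vertices of `W'` (`N` is independent); let `a_v b_v c_v` be the permutations `σ w v * c w` for these
(`exists3`), and `μ_v, D_v` from `lemM`.  The permutations `x` such that `σ u v * x` agrees with `μ_v`
in at least 3 rows of `D_v` are at most 18 (`cnt_agree` through the bijection `x ↦ σ u v * x`).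
The neighbours of `u` in `W'` are at most two in the first case and none in the second; so the
number of `x` that avoid the permutations `σ w u * c w` for them is at least 80 (`cnt_avoid2`) or
720 (`Fintype.card P6`), more than `18 * 4 = 72` or `18 * 7 = 126`.  So there is an `x` that avoids
them and is not bad for any `v ∈ N`: colour `u` by `x`, and each `v ∈ N` by a permutation `π_v` which
is disjoint from `σ u v * x, a_v, b_v, c_v`.  As `N` is independent this packs `W`.
-/

set_option autoImplicit false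

namespace Pool.Agent.PKF

variable {V : Type} [DecidableEq V]

private theorem Star_three (G : SimpleGraph V) [DecidableRel G.Adj] (W : Finset V) (u : V)
    (hu : u ∈ W) (N : Finset V) (hind : ∀ v ∈ N, ∀ w ∈ N, ¬ G.Adj v w) (v : V) (hv : v ∈ N)
    (huv : G.Adj u v) (hdv : dg G W v = 4) :
    (((W.erase u) \ N).filter (fun w => G.Adj v w)).card = 3 := by
  have h1 : (W.filter (fun w => G.Adj v w)) =
      insert u (((W.erase u) \ N).filter (fun w => G.Adj v w)) := by
    ext w
    rw [Finset.mem_insert, Finset.mem_filter, Finset.mem_filter, Finset.mem_sdiff,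
      Finset.mem_erase]
    constructor
    · rintro ⟨h2, h3⟩
      by_cases h4 : w = u
      · exact Or.inl h4
      · exact Or.inr ⟨⟨⟨h4, h2⟩, fun h5 => hind v hv w h5 h3⟩, h3⟩
    · rintro (h2 | ⟨h2, h3⟩)
      · subst h2
        exact ⟨hu, huv.symm⟩
      · exact ⟨h2.1.2, h3⟩
  have h2 : (W.filter (fun w => G.Adj v w)).card = 4 := hdv
  rw [h1, Finset.card_insert_of_notMem] at h2
  · omega
  · intro h3
    rw [Finset.mem_filter, Finset.mem_sdiff, Finset.mem_erase] at h3
    exact h3.1.1.1 rfl

private theorem Star_two (N : Finset V) (hN : N.card ≤ 2) (p : V → P6) :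
    ∃ a b : P6, ∀ u ∈ N, p u = a ∨ p u = b := by
  have h : N.card = 0 ∨ N.card = 1 ∨ N.card = 2 := by omega
  rcases h with h | h | h
  · rw [Finset.card_eq_zero] at h
    subst h
    exact ⟨1, 1, fun u hu => absurd hu (Finset.notMem_empty u)⟩
  · obtain ⟨x, rfl⟩ := Finset.card_eq_one.1 h
    refine ⟨p x, p x, fun u hu => ?_⟩
    rw [Finset.mem_singleton] at hu
    exact Or.inl (by rw [hu])
  · obtain ⟨x, y, -, rfl⟩ := Finset.card_eq_two.1 h
    refine ⟨p x, p y, fun u hu => ?_⟩
    rw [Finset.mem_insert, Finset.mem_singleton] at hu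
    rcases hu with hu | hu
    · exact Or.inl (by rw [hu])
    · exact Or.inr (by rw [hu])

private theorem Star_bad (s μ : P6) (D : Finset (Fin 6)) (hD : D.card = 4) :
    ((Finset.univ : Finset P6).filter
      (fun x => 3 ≤ (D.filter (fun i => (s * x) i = μ i)).card)).card ≤ 18 := by
  refine le_trans ?_ (cnt_agree μ D hD)
  refine Finset.card_le_card_of_injOn (fun x => s * x) ?_ ?_
  · intro x hx
    have hx' := (Finset.mem_filter.1 (Finset.mem_coe.1 hx)).2
    exact Finset.mem_coe.2 (Finset.mem_filter.2 ⟨Finset.mem_univ _, hx'⟩)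
  · intro x _ y _ h
    exact mul_left_cancel h

private theorem Star_M (G : SimpleGraph V) [DecidableRel G.Adj] (W : Finset V) (u : V)
    (N : Finset V) (hNW : N ⊆ W) (hN : ∀ v ∈ N, G.Adj u v) :
    (((W.erase u) \ N).filter (fun w => G.Adj u w)).card + N.card = dg G W u := by
  have h1 : (W.filter (fun w => G.Adj u w)) =
      (((W.erase u) \ N).filter (fun w => G.Adj u w)) ∪ N := by
    ext w
    rw [Finset.mem_union, Finset.mem_filter, Finset.mem_filter, Finset.mem_sdiff,
      Finset.mem_erase]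
    constructor
    · rintro ⟨h2, h3⟩
      by_cases h4 : w ∈ N
      · exact Or.inr h4
      · exact Or.inl ⟨⟨⟨h3.ne', h2⟩, h4⟩, h3⟩
    · rintro (h2 | h2)
      · exact ⟨h2.1.1.2, h2.2⟩
      · exact ⟨hNW h2, hN w h2⟩
  have h2 : Disjoint (((W.erase u) \ N).filter (fun w => G.Adj u w)) N := by
    rw [Finset.disjoint_left]
    intro w hw hw'
    rw [Finset.mem_filter, Finset.mem_sdiff] at hw
    exact hw.1.2 hw'
  show _ = (W.filter (fun w => G.Adj u w)).card
  rw [h1, Finset.card_union_of_disjoint h2]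

theorem pack_star (G : SimpleGraph V) [DecidableRel G.Adj] (σ : V → V → P6)
    (hσ : ∀ u v, G.Adj u v → σ v u = (σ u v).symm) (W : Finset V) (u : V) (hu : u ∈ W)
    (N : Finset V) (hNW : N ⊆ W) (hN : ∀ v ∈ N, G.Adj u v ∧ dg G W v = 4)
    (hind : ∀ v ∈ N, ∀ w ∈ N, ¬ G.Adj v w)
    (hcase : (dg G W u = 6 ∧ N.card = 4) ∨ (dg G W u = 7 ∧ N.card = 7))
    (h : Packable G σ ((W.erase u) \ N)) : Packable G σ W := by
  classical
  obtain ⟨c, hc⟩ := h
  -- the data of the vertices of `N`
  have hdat : ∀ v : V, ∃ (A B C μ : P6) (D : Finset (Fin 6)), v ∈ N →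
      (∀ w ∈ ((W.erase u) \ N).filter (fun w => G.Adj v w),
        σ w v * c w = A ∨ σ w v * c w = B ∨ σ w v * c w = C) ∧ D.card = 4 ∧
      ∀ d, Bad4 A B C d → 3 ≤ (D.filter (fun i => d i = μ i)).card := by
    intro v
    by_cases hv : v ∈ N
    · obtain ⟨A, B, C, hABC⟩ := exists3 (((W.erase u) \ N).filter (fun w => G.Adj v w))
        (Star_three G W u hu N hind v hv (hN v hv).1 (hN v hv).2).le (fun w => σ w v * c w)
      obtain ⟨μ, D, hD, hbad, -⟩ := lemM A B C
      exact ⟨A, B, C, μ, D, fun _ => ⟨hABC, hD, hbad⟩⟩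
    · exact ⟨1, 1, 1, 1, ∅, fun h => absurd h hv⟩
  choose A B C μ D hdat using hdat
  -- the bad permutations
  set Bd : Finset P6 := N.biUnion (fun v => (Finset.univ : Finset P6).filter
    (fun x => 3 ≤ ((D v).filter (fun i => (σ u v * x) i = μ v i)).card)) with hBd
  have hBdc : Bd.card ≤ N.card * 18 := by
    refine Finset.card_biUnion_le_card_mul _ _ _ ?_
    intro v hv
    exact Star_bad (σ u v) (μ v) (D v) (hdat v hv).2.1
  set M : Finset V := ((W.erase u) \ N).filter (fun w => G.Adj u w) with hM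
  have hMc : M.card + N.card = dg G W u := Star_M G W u N hNW (fun v hv => (hN v hv).1)
  obtain ⟨x, hx, hxB⟩ : ∃ x : P6, (∀ w ∈ M, ∀ i, x i ≠ (σ w u * c w) i) ∧ x ∉ Bd := by
    rcases hcase with ⟨h1, h2⟩ | ⟨h1, h2⟩
    · obtain ⟨q1, q2, hq⟩ := Star_two M (by omega) (fun w => σ w u * c w)
      have h3 := cnt_avoid2 q1 q2
      have h4 : Bd.card < ((Finset.univ : Finset P6).filter
          (fun s => ∀ i, s i ≠ q1 i ∧ s i ≠ q2 i)).card := by omega
      obtain ⟨x, hx1, hx2⟩ := Finset.exists_mem_notMem_of_card_lt_card h4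
      refine ⟨x, fun w hw i => ?_, hx2⟩
      have h5 := (Finset.mem_filter.1 hx1).2 i
      rcases hq w hw with h6 | h6
      · rw [show σ w u * c w = q1 from h6]
        exact h5.1
      · rw [show σ w u * c w = q2 from h6]
        exact h5.2
    · have h3 : M = ∅ := by
        rw [← Finset.card_eq_zero]
        omega
      have h4 : (Finset.univ : Finset P6).card = 720 := by
        rw [Finset.card_univ, Fintype.card_perm, Fintype.card_fin]
        rfl
      have h5 : Bd.card < (Finset.univ : Finset P6).card := by omega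
      obtain ⟨x, -, hx2⟩ := Finset.exists_mem_notMem_of_card_lt_card h5
      refine ⟨x, fun w hw => ?_, hx2⟩
      rw [h3] at hw
      exact absurd hw (Finset.notMem_empty w)
  -- the permutations for `N`
  have hπ : ∀ v : V, ∃ π : P6, v ∈ N → ∀ i, π i ≠ A v i ∧ π i ≠ B v i ∧ π i ≠ C v i ∧
      π i ≠ (σ u v * x) i := by
    intro v
    by_cases hv : v ∈ N
    · have hnb : ¬ Bad4 (A v) (B v) (C v) (σ u v * x) := by
        intro hb
        apply hxB
        rw [hBd, Finset.mem_biUnion]
        exact ⟨v, hv, Finset.mem_filter.2 ⟨Finset.mem_univ _, (hdat v hv).2.2 _ hb⟩⟩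
      obtain ⟨π, hπ⟩ := not_not.1 hnb
      exact ⟨π, fun _ => hπ⟩
    · exact ⟨1, fun h => absurd h hv⟩
  choose π hπ using hπ
  have huN : u ∉ N := fun h1 => G.loopless.irrefl u (hN u h1).1
  have hu' : u ∉ (W.erase u) \ N := fun h1 =>
    (Finset.mem_erase.1 (Finset.mem_sdiff.1 h1).1).1 rfl
  have k1 := pack_update G σ hσ ((W.erase u) \ N) u hu' c hc x (by
    intro w hw hwu i
    exact hx w (Finset.mem_filter.2 ⟨hw, hwu.symm⟩) i)
  have hins : ∀ w ∈ W, w ∉ N → w ∈ insert u ((W.erase u) \ N) := by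
    intro w hw hwN
    rw [Finset.mem_insert, Finset.mem_sdiff, Finset.mem_erase]
    by_cases h1 : w = u
    · exact Or.inl h1
    · exact Or.inr ⟨⟨h1, hw⟩, hwN⟩
  have key : ∀ v ∈ N, ∀ w ∈ W, w ∉ N → G.Adj w v → ∀ i,
      π v i ≠ σ w v (Function.update c u x w i) := by
    intro v hv w hw hwN hwv i
    have h1 := hπ v hv i
    by_cases h2 : w = u
    · subst h2
      rw [Function.update_self]
      exact h1.2.2.2
    · rw [Function.update_of_ne h2]
      have h3 : w ∈ ((W.erase u) \ N).filter (fun w => G.Adj v w) := by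
        rw [Finset.mem_filter, Finset.mem_sdiff, Finset.mem_erase]
        exact ⟨⟨⟨h2, hw⟩, hwN⟩, hwv.symm⟩
      have h4 : σ w v (c w i) = (σ w v * c w) i := rfl
      rw [h4]
      rcases (hdat v hv).1 w h3 with h5 | h5 | h5
      · rw [h5]
        exact h1.1
      · rw [h5]
        exact h1.2.1
      · rw [h5]
        exact h1.2.2.1
  refine ⟨fun w => if w ∈ N then π w else Function.update c u x w, ?_⟩
  intro p hp q hq hpq i
  show (if q ∈ N then π q else Function.update c u x q) i ≠
    σ p q ((if p ∈ N then π p else Function.update c u x p) i)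
  by_cases hpN : p ∈ N
  · by_cases hqN : q ∈ N
    · exact absurd hpq (hind p hpN q hqN)
    · rw [if_neg hqN, if_pos hpN]
      intro h1
      apply key p hpN q hq hqN hpq.symm i
      rw [h1, hσ p q hpq, Equiv.symm_apply_apply]
  · by_cases hqN : q ∈ N
    · rw [if_pos hqN, if_neg hpN]
      exact key q hqN p hp hpN hpq i
    · rw [if_neg hqN, if_neg hpN]
      exact k1 p (hins p hp hpN) q (hins q hq hqN) hpq i

end Pool.Agent.PKF
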