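import Pool.Agent.PKF.Ext2
import Pool.Agent.PKF.Star
import Pool.Agent.PKF.Disch

/-!
PKF-Main (MP_36eb6d_co).  Assembly.

Plan.  `pack_all`: strong induction on `W.card`.  Suppose `W` is not packable; it is nonempty; all
proper subsets are packable.  `h0` of `disch`: otherwise `pack_small`.  `h1`: otherwise `pack_44`.
`h2`: otherwise `pack_455`.  `h3`: otherwise choose a subset `N` of size 4 of that set
(`Finset.exists_subset_card_eq`) and use `pack_star` (`N` is independent by `h1`); `h4` in the same way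
with `N` of size 7.  `disch` contradicts the hypothesis, as the number of pairs is the sum of the
`dg G W v`.
`main5`: `pack_all` for `W = univ`; the `i`-th colouring is `fun v => c v i`.
-/

set_option autoImplicit false

namespace Pool.Agent.PKF

theorem pairs_card {V : Type} [DecidableEq V] (G : SimpleGraph V) [DecidableRel G.Adj]
    (W : Finset V) :
    ((W ×ˢ W).filter (fun p => G.Adj p.1 p.2)).card = ∑ v ∈ W, dg G W v := by
  rw [Finset.card_filter, Finset.sum_product]
  refine Finset.sum_congr rfl fun v _ => ?_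
  rw [dg, Finset.card_filter]

theorem pack_all {V : Type} [DecidableEq V] (G : SimpleGraph V) [DecidableRel G.Adj]
    (hmad : ∀ S : Finset V, S.Nonempty →
      ((S ×ˢ S).filter (fun p => G.Adj p.1 p.2)).card < 5 * S.card)
    (σ : V → V → P6) (hσ : ∀ u v, G.Adj u v → σ v u = (σ u v).symm) (W : Finset V) :
    Packable G σ W := by
  induction W using Finset.strongInduction with
  | H W ih =>
    by_contra hW
    have hne : W.Nonempty := by
      rw [Finset.nonempty_iff_ne_empty]
      rintro rfl
      exact hW ⟨fun _ => 1, fun u hu => absurd hu (Finset.notMem_empty u)⟩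
    have h0 : ∀ v ∈ W, 4 ≤ dg G W v := by
      intro v hv
      by_contra hlt
      exact hW (pack_small G σ hσ W v hv (by omega) (ih _ (Finset.erase_ssubset hv)))
    have h1 : ∀ v ∈ W, dg G W v = 4 → ∀ u ∈ W, G.Adj v u → dg G W u ≠ 4 := by
      intro v hv hdv u hu hvu hdu
      exact hW (pack_44 G σ hσ W v u hv hu hvu hdv hdu
        (ih _ (lt_of_le_of_lt (Finset.erase_subset u (W.erase v)) (Finset.erase_ssubset hv))))
    have h2 : ∀ v ∈ W, dg G W v = 4 → ∀ u1 ∈ W, ∀ u2 ∈ W, G.Adj v u1 → G.Adj v u2 →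
        dg G W u1 = 5 → dg G W u2 = 5 → u1 = u2 := by
      intro v hv hdv u1 hu1 u2 hu2 hv1 hv2 hd1 hd2
      by_contra h12
      exact hW (pack_455 G σ hσ W v u1 u2 hv hu1 hu2 h12 hv1 hv2 hdv hd1 hd2
        (ih _ (Finset.erase_ssubset hv)))
    have hstar : ∀ u ∈ W, ∀ n : ℕ, ((dg G W u = 6 ∧ n = 4) ∨ (dg G W u = 7 ∧ n = 7)) →
        ¬ n ≤ (W.filter (fun v => G.Adj u v ∧ dg G W v = 4)).card := by
      intro u hu n hcase hle
      obtain ⟨N, hN, hNc⟩ := Finset.exists_subset_card_eq hle
      refine hW (pack_star G σ hσ W u hu N (hN.trans (Finset.filter_subset _ _)) ?_ ?_ ?_ ?_)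
      · intro v hv
        exact (Finset.mem_filter.1 (hN hv)).2
      · intro v hv w hw hvw
        have hv' := Finset.mem_filter.1 (hN hv)
        have hw' := Finset.mem_filter.1 (hN hw)
        exact h1 v hv'.1 hv'.2.2 w hw'.1 hvw hw'.2.2
      · rw [hNc]
        exact hcase
      · exact ih _ (lt_of_le_of_lt Finset.sdiff_subset (Finset.erase_ssubset hu))
    have h3 : ∀ u ∈ W, dg G W u = 6 →
        (W.filter (fun v => G.Adj u v ∧ dg G W v = 4)).card ≤ 3 := by
      intro u hu hd
      have := hstar u hu 4 (Or.inl ⟨hd, rfl⟩)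
      omega
    have h4 : ∀ u ∈ W, dg G W u = 7 →
        (W.filter (fun v => G.Adj u v ∧ dg G W v = 4)).card ≤ 6 := by
      intro u hu hd
      have := hstar u hu 7 (Or.inr ⟨hd, rfl⟩)
      omega
    have := disch G W h0 h1 h2 h3 h4
    have h5 := hmad W hne
    rw [pairs_card] at h5
    omega

theorem main5 (V : Type) [Fintype V] [DecidableEq V] (G : SimpleGraph V) [DecidableRel G.Adj]
    (hmad : ∀ S : Finset V, S.Nonempty →
      ((S ×ˢ S).filter (fun p => G.Adj p.1 p.2)).card < 5 * S.card)
    (σ : V → V → Equiv.Perm (Fin 6)) (hσ : ∀ u v, G.Adj u v → σ v u = (σ u v).symm) :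
    ∃ c : Fin 6 → V → Fin 6,
      (∀ v, Function.Injective (fun i => c i v)) ∧
      ∀ i u v, G.Adj u v → c i v ≠ σ u v (c i u) := by
  obtain ⟨c, hc⟩ := pack_all G hmad σ hσ Finset.univ
  refine ⟨fun i v => c v i, fun v => (c v).injective, fun i u v huv => ?_⟩
  exact hc u (Finset.mem_univ u) v (Finset.mem_univ v) huv i

end Pool.Agent.PKF
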